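import Pool.Agent.Run7.h439.DC.Res
import Pool.Agent.H499R2.HL.E

set_option autoImplicit false

/-!
# Maximum excursions in the classes defined by digits in odd bases

We consider the positive integers in a class given by the residues of strongly additive digit functions
(for example sums of digits) in pairwise coprime odd bases. The law of the ratio of the maximum excursion
and the starting value, and its joint law with the total stopping time, hold in every such class.
-/

namespace Pool.Agent.Results.MP_0a5adf_nt.DigitClassesExcursions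

open Filter Topology

/-- the accelerated `3x+1` map -/
def T (n : ℕ) : ℕ := if n % 2 = 0 then n / 2 else (3 * n + 1) / 2

/-- `t(n) < ∞` -/
def FiniteExcursion (n : ℕ) : Prop := ∃ M : ℕ, ∀ k, T^[k] n ≤ M

/-- `t(n) ≤ c` -/
def ExcursionLE (n : ℕ) (c : ℝ) : Prop := ∀ k, (T^[k] n : ℝ) ≤ c

/-- `k` is the first time at which the trajectory of `n` visits `1` -/
def IsTotalStoppingTime (n k : ℕ) : Prop := T^[k] n = 1 ∧ ∀ j < k, T^[j] n ≠ 1

/-- the number of odd terms among `n, T n, ..., T^(k-1) n` -/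
def odds (k n : ℕ) : ℕ := ((Finset.range k).filter fun i => T^[i] n % 2 = 1).card

/-- `W` is strongly `q`-additive: `W(n)` is the sum of the values of `W` at the digits of `n` in base `q`. -/
def StronglyAdditive (q : ℕ) (W : ℕ → ℤ) : Prop := ∀ n r : ℕ, r < q → W (q * n + r) = W n + W r

/-- There is no prime `p ∣ m` such that `W(r) ≡ r W(1)` modulo `p` for all `r ≤ q`. For the sum of the
digits in base `q` this says that `m` is coprime to `q - 1`. -/
def Unobstructed (q : ℕ) (W : ℕ → ℤ) (m : ℕ) : Prop :=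
  ∀ p : ℕ, p.Prime → p ∣ m → ∃ r : ℕ, r ≤ q ∧ ¬ W r ≡ r * W 1 [ZMOD p]

/-- The data: pairwise coprime odd bases `q i ≥ 3`, strongly `q i`-additive functions `W i` with integer
values, and moduli `m i ≥ 1` without obstruction. -/
structure Data {l : ℕ} (q m : Fin l → ℕ) (W : Fin l → ℕ → ℤ) : Prop where
  odd : ∀ i, 3 ≤ q i ∧ q i % 2 = 1
  coprime : ∀ i j, i ≠ j → Nat.Coprime (q i) (q j)
  additive : ∀ i, StronglyAdditive (q i) (W i)
  pos : ∀ i, 1 ≤ m i
  free : ∀ i, Unobstructed (q i) (W i) (m i)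

/-- the class: `W i (n) ≡ a i` modulo `m i` for all `i` -/
def InClass {l : ℕ} (m : Fin l → ℕ) (W : Fin l → ℕ → ℤ) (a : Fin l → ℤ) (n : ℕ) : Prop :=
  ∀ i, W i n ≡ a i [ZMOD m i]

/-- the positive integers with the property `P` have the natural density `δ` -/
def HasDensity (P : ℕ → Prop) (δ : ℝ) : Prop :=
  Tendsto (fun N : ℕ => ({n : ℕ | 1 ≤ n ∧ n ≤ N ∧ P n}.ncard : ℝ) / N) atTop (𝓝 δ)

/-- words `w` of length `K` over `{0,1}` with `3^(w_0+...+w_(k-1)) / 2^k < lam` for `1 ≤ k ≤ K` -/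
def safeWords (K : ℕ) (lam : ℝ) : Set (Fin K → Fin 2) :=
  {w | ∀ k, 1 ≤ k → k ≤ K →
    (3 : ℝ) ^ (∑ i ∈ Finset.univ.filter (fun i : Fin K => (i : ℕ) < k), (w i : ℕ)) < lam * 2 ^ k}

/-- `2 / log (4/3) * log n + x * log 3 * √(2 log n / (log (4/3))^3)` -/
noncomputable def bound (x : ℝ) (n : ℕ) : ℝ :=
  2 / Real.log (4 / 3) * Real.log n
    + x * (Real.log 3 * Real.sqrt (2 * Real.log n / Real.log (4 / 3) ^ 3))

/-- The distribution function of the standard normal law. -/
noncomputable def Phi (x : ℝ) : ℝ :=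
  ProbabilityTheory.cdf (ProbabilityTheory.gaussianReal 0 1) x

open Pool.Agent.Run7.h439.DC
open Pool.Agent.H319R3.GC (Tm Adm)
open Pool.Agent.Y965.PS (Tz)
open Pool.Agent.Y965.PL (Mn MnS th ind ind_pos ind_neg ind_congr ind_nonneg Lv valK clsK bK bK_pos Mn_of_Dn)
open Pool.Agent.H499R2.ND (Tn Bdd AK rK Bdd_inv AK_mod)
open Pool.Agent.H499R2.HL (H Pev)

theorem T_eq : T = Tn := by funext a; rfl

theorem count_ind (P : ℕ → Prop) (X : ℕ) :
    ({n : ℕ | 1 ≤ n ∧ n ≤ X ∧ P n}.ncard : ℝ) = ∑ n ∈ Finset.Icc 1 X, ind P n := by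
  classical
  unfold ind
  rw [Finset.sum_boole]
  have e : {n : ℕ | 1 ≤ n ∧ n ≤ X ∧ P n} = ((Finset.Icc 1 X).filter fun n => P n : Finset ℕ) := by
    ext n
    simp only [Set.mem_ofPred_eq, Finset.coe_filter, Finset.mem_Icc, and_assoc]
  rw [e, Set.ncard_coe_finset]

theorem along_of {P Q : ℕ → Prop} {d : ℝ} (h : Mn (ind Q) d) (hPQ : ∀ n, 1 ≤ n → (P n ↔ Q n)) : HasDensity P d := by
  unfold HasDensity
  unfold Mn at h
  refine h.congr fun X => ?_
  rw [count_ind P X]
  congr 1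
  apply Finset.sum_congr rfl
  intro n hn
  exact ind_congr (hPQ _ (Finset.mem_Icc.1 hn).1).symm

theorem dens_unique {P : ℕ → Prop} {a b : ℝ} (h : HasDensity P a) (h' : HasDensity P b) : a = b := tendsto_nhds_unique h h'

open Classical in
/-- the extension of a function on the positive integers to all integers -/
theorem sync_of {F : ℕ → ℝ} (hb : ∀ n, |F n| ≤ 1) (hF : ∀ n, F (T n) = F n) : KSync 2 m3 (r3 1) 1 1 0 F := by
  have h1 := ksync_f (d := 2) (mm := m3) (r := r3 1) (s := 1) (f := fun x : ℤ => if 0 < x then F x.toNat else 0)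
    (fun x => by
      split_ifs
      · exact hb _
      · simp) (fun x => by
      rw [Tm3]
      by_cases hx : 0 < x
      · obtain ⟨n, rfl⟩ : ∃ n : ℕ, x = n := ⟨x.toNat, by omega⟩
        have hn : 0 < n := by exact_mod_cast hx
        rw [Pool.Agent.Y965.PL.Tz_nat]
        have h2 : 0 < Tn n := by
          unfold Pool.Agent.H499R2.ND.Tn
          split_ifs <;> omega
        rw [if_pos (by exact_mod_cast h2), if_pos hx, Int.toNat_natCast, Int.toNat_natCast]
        exact hF n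
      · have h2 : ¬ 0 < Tz 1 x := by
          unfold Pool.Agent.Y965.PS.Tz
          split_ifs <;> omega
        rw [if_neg h2, if_neg hx])
  refine ⟨hb, fun k hk n n' hn hn' he => ?_⟩
  have h2 := h1.2 k hk n n' hn hn' he
  have hn0 : 0 < n := lt_of_le_of_lt (Nat.zero_le _) hn
  have hn0' : 0 < n' := lt_of_le_of_lt (Nat.zero_le _) hn'
  simp only [one_mul] at h2
  rw [if_pos (by exact_mod_cast hn0), if_pos (by exact_mod_cast hn0'), Int.toNat_natCast, Int.toNat_natCast] at h2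
  exact h2

/-- MAXIMUM EXCURSIONS IN DIGIT CLASSES. Let `β > 0` be the natural density of the `n` with `t(n) < ∞`, let
`δ > 0` be that of the `n` which reach `1`, and for `lam ≥ 1` let `q lam ≥ 1 - 1 / lam` be the limit of the
proportion of the safe words. For all data and all classes:

(1) (Uniform transfer.) For all `M ≥ 1` there are `K` and `c > 0`, the same for all classes, such that for all
functions `F` with `F (T n) = F n` and `|F| ≤ 1`, all residues `b` modulo `M` and all `X ≥ 1` the sum of `F n`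
over the `n ≤ X` in the class with `n ≡ b` modulo `M` is `∏ 1 / m i` times the sum over all `n ≤ X` with
`n ≡ b` modulo `M`, up to `K X ^ (1 - c)`.

(2) The `n` in the class with `t(n) < ∞` have natural density `(∏ 1 / m i) * β`; if this is the density of
the class, that is, if `t(n) < ∞` for almost all `n` in one class, then `t(n) < ∞` for all `n`.

(3) For `lam ≥ 1` the `n` in the class with `t(n) ≤ lam n` have natural density `(∏ 1 / m i) * (β * q lam)`.

(4) For `lam ≥ 1` the `n` in the class with `t(n) ≤ lam n` which reach `1` for the first time at a time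
`k ≤ bound x n`, `k ≡ u`, with a number of odd terms before `≡ v` modulo `r`, have natural density
`(∏ 1 / m i) * (δ * q lam * Phi x / r ^ 2)`. -/
theorem result : ∃ (β δ : ℝ) (w : ℝ → ℝ), 0 < β ∧ β ≤ 1 ∧ 0 < δ ∧ δ ≤ 1 ∧ HasDensity FiniteExcursion β ∧
    HasDensity (fun n => ∃ k, T^[k] n = 1) δ ∧
    (∀ lam : ℝ, 1 ≤ lam → 1 - 1 / lam ≤ w lam ∧ w lam ≤ 1 ∧
      Tendsto (fun K : ℕ => ((safeWords K lam).ncard : ℝ) / 2 ^ K) atTop (𝓝 (w lam))) ∧
    ∀ (l : ℕ) (q m : Fin l → ℕ) (W : Fin l → ℕ → ℤ), Data q m W →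
      (∀ M : ℕ, 1 ≤ M → ∃ K c : ℝ, 0 < c ∧ ∀ F : ℕ → ℝ, (∀ n, |F n| ≤ 1) → (∀ n, F (T n) = F n) →
        ∀ (a : Fin l → ℤ) (b X : ℕ), 1 ≤ X →
        |∑ᶠ n ∈ {n : ℕ | 1 ≤ n ∧ n ≤ X ∧ InClass m W a n ∧ n % M = b % M}, F n -
          (∏ i, 1 / (m i : ℝ)) * ∑ᶠ n ∈ {n : ℕ | 1 ≤ n ∧ n ≤ X ∧ n % M = b % M}, F n| ≤ K * (X : ℝ) ^ (1 - c)) ∧
      ∀ a : Fin l → ℤ,
      (HasDensity (fun n => InClass m W a n ∧ FiniteExcursion n) ((∏ i, 1 / (m i : ℝ)) * β) ∧
        (HasDensity (fun n => InClass m W a n ∧ ¬ FiniteExcursion n) 0 → ∀ n : ℕ, 1 ≤ n → FiniteExcursion n)) ∧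
      (∀ lam : ℝ, 1 ≤ lam →
        HasDensity (fun n => InClass m W a n ∧ ExcursionLE n (lam * n)) ((∏ i, 1 / (m i : ℝ)) * (β * w lam))) ∧
      ∀ lam : ℝ, 1 ≤ lam → ∀ (r : ℕ) (u v : ℤ), 1 ≤ r → ∀ x : ℝ,
        HasDensity (fun n => InClass m W a n ∧ ExcursionLE n (lam * n) ∧ ∃ k : ℕ, (k : ℝ) ≤ bound x n ∧
          IsTotalStoppingTime n k ∧ (k : ℤ) ≡ u [ZMOD r] ∧ (odds k n : ℤ) ≡ v [ZMOD r])
          ((∏ i, 1 / (m i : ℝ)) * (δ * w lam * Phi x / r ^ 2)) := by
  classical
  obtain ⟨β, hβ0, hβ1, hβall, hβ⟩ := Pool.Agent.H499R2.ND.Bdd_density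
  obtain ⟨δ, hδ0, hδ1, _, hδ, hlaw⟩ := Pool.Agent.H499R2.LT.law_one
  have h : ∀ lam : ℝ, ∃ q : ℝ, 1 ≤ lam → 1 - 1 / lam ≤ q ∧ q ≤ 1 ∧
      Tendsto (fun K => rK K lam) atTop (𝓝 q) ∧
      Pool.Agent.H499R2.ND.Dn (fun n => ∀ k, ((Tn^[k] n : ℕ) : ℝ) ≤ lam * n) (β * q) := by
    intro lam
    by_cases hl : 1 ≤ lam
    · obtain ⟨q, g1, g2, g3, g4⟩ := Pool.Agent.H499R2.ND.exc_law hβ hl
      exact ⟨q, fun _ => ⟨g2, g3, g1, g4⟩⟩
    · exact ⟨0, fun h' => absurd h' hl⟩
  choose w hw using h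
  refine ⟨β, δ, w, hβ0, hβ1, hδ0, hδ1, hβ, hδ, fun lam hl => ?_, fun l q m W hD => ?_⟩
  · obtain ⟨g1, g2, g3, _⟩ := hw lam hl
    exact ⟨g1, g2, g3.congr fun K => Pool.Agent.H499R2.ND.rK_words K lam⟩
  have hDD : DD 2 q m W := by
    refine ⟨fun i => (hD.odd i).1, fun i => ?_, hD.coprime, hD.additive, hD.pos, hD.free⟩
    rw [Nat.coprime_two_left]
    exact Nat.odd_iff.2 (hD.odd i).2
  obtain ⟨hρ0, hρ1⟩ := rho01 hD.pos
  set ρ : ℝ := ∏ i, 1 / (m i : ℝ) with hρ
  have hcl : ∀ {a : Fin l → ℤ} (n : ℕ), InClass m W a n ↔ Ed m W a n := fun n => Ed_iff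
  have hBs : ∀ n, ind Bdd (T n) = ind Bdd n := by
    intro n
    by_cases h : Bdd n
    · rw [ind_pos h, ind_pos (show Bdd (T n) from (Bdd_inv n).1 h)]
    · rw [ind_neg h, ind_neg (fun h' : Bdd (T n) => h ((Bdd_inv n).2 h'))]
  have hind1 : ∀ (P : ℕ → Prop) n, |ind P n| ≤ 1 := fun P n => by unfold ind; split_ifs <;> simp
  -- the finite excursions, with a residue condition
  have hAKB : ∀ (K : ℕ) (lam : ℝ) (a : Fin l → ℤ),
      MnS id (ind (fun n => Ed m W a n ∧ (AK K lam n ∧ Bdd n))) (ρ * (rK K lam * β)) := by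
    intro K lam a
    obtain ⟨C, c, hC, hc0, _, hT⟩ := ct_ress (adm3 (k := 1) odd_one) 1 0 hDD (M := 2 ^ K) (by exact Nat.one_le_two_pow)
    have h1 := hT 1 (Or.inl rfl) _ (sync_of (hind1 Bdd) hBs) a (AK K lam) (fun n => AK_mod K lam n)
    have h2 : CT (Ed m W a) ρ C c (ind (fun n => AK K lam n ∧ Bdd n)) := by
      refine h1.congr fun n => ?_
      rw [ind_and]
      by_cases h3 : AK K lam n
      · rw [if_pos h3, ind_pos h3, one_mul]
      · rw [if_neg h3, ind_neg h3, zero_mul]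
    exact cls_set hρ0.le hρ1 hc0 h2 (Mn_of_Dn (Pool.Agent.H499R2.ND.dn_AK Bdd_inv hβ K lam))
  have hfin : ∀ a : Fin l → ℤ, HasDensity (fun n => InClass m W a n ∧ FiniteExcursion n) (ρ * β) := by
    intro a
    obtain ⟨C, c, hC, hc0, _, hT⟩ := ct_ress (adm3 (k := 1) odd_one) 1 0 hDD (M := 1) le_rfl
    have h1 := hT 1 (Or.inl rfl) _ (sync_of (hind1 Bdd) hBs) a (fun _ => True) (fun n => Iff.rfl)
    have h2 : CT (Ed m W a) ρ C c (ind Bdd) := h1.congr fun n => by rw [if_pos trivial]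
    exact along_of (cls_set hρ0.le hρ1 hc0 h2 (Mn_of_Dn hβ)) fun n _ => and_congr (hcl n) Iff.rfl
  refine ⟨fun M hM => ?_, fun a => ⟨⟨hfin a, fun h0 => ?_⟩, fun lam hl => ?_, fun lam hl r u v hr x => ?_⟩⟩
  · obtain ⟨C, c, hC, hc0, _, hT⟩ := ct_res (adm3 (k := 1) odd_one) 1 0 hDD hM
    refine ⟨C, c, hc0, fun F hb hF a b X hX => ?_⟩
    have h1 := (hT 1 (Or.inl rfl) F (sync_of hb hF) a b).tr X hX
    have hset : ∀ P : ℕ → Prop, ∑ᶠ n ∈ {n : ℕ | 1 ≤ n ∧ n ≤ X ∧ P n}, F n = ∑ n ∈ Finset.Icc 1 X, (if P n then F n else 0) := by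
      intro P
      rw [finsum_mem_eq_finite_toFinset_sum _ ((Set.finite_Iic X).subset fun n hn => hn.2.1)]
      have e : ((Set.finite_Iic X).subset fun n (hn : n ∈ {n : ℕ | 1 ≤ n ∧ n ≤ X ∧ P n}) => hn.2.1).toFinset
          = (Finset.Icc 1 X).filter (fun n => P n) := by
        ext n
        simp only [Set.Finite.mem_toFinset, Set.mem_ofPred_eq, Finset.mem_filter, Finset.mem_Icc, and_assoc]
      rw [e, Finset.sum_filter]
    have e5 : ∑ᶠ n ∈ {n : ℕ | 1 ≤ n ∧ n ≤ X ∧ InClass m W a n ∧ n % M = b % M}, F n =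
        ∑ n ∈ Finset.Icc 1 X, ind (Ed m W a) n * (if n % M = b % M then F n else 0) := by
      rw [hset (fun n => InClass m W a n ∧ n % M = b % M)]
      apply Finset.sum_congr rfl
      intro n _
      by_cases h : Ed m W a n
      · rw [ind_pos h, one_mul]
        by_cases h2 : n % M = b % M
        · rw [if_pos h2, if_pos ⟨(hcl n).2 h, h2⟩]
        · rw [if_neg h2, if_neg (fun h3 => h2 h3.2)]
      · rw [ind_neg h, zero_mul, if_neg (fun h3 => h ((hcl n).1 h3.1))]
    have e6 : ∑ᶠ n ∈ {n : ℕ | 1 ≤ n ∧ n ≤ X ∧ n % M = b % M}, F n =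
        ∑ n ∈ Finset.Icc 1 X, (if n % M = b % M then F n else 0) := by
      rw [hset (fun n => n % M = b % M)]
      apply Finset.sum_congr rfl
      intro n _
      by_cases h2 : n % M = b % M
      · rw [if_pos h2, if_pos h2]
      · rw [if_neg h2, if_neg h2]
    rw [e5, e6]
    exact h1
  · -- all excursions are finite
    obtain ⟨C, c, hC, hc0, _, hT⟩ := ct_ress (adm3 (k := 1) odd_one) 1 0 hDD (M := 1) le_rfl
    have h1 := hT 1 (Or.inl rfl) (fun _ => 1) (sync_of (by simp) (fun _ => rfl)) a (fun _ => True) (fun n => Iff.rfl)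
    have h2 : CT (Ed m W a) ρ C c (ind fun _ => True) := h1.congr fun n => by rw [if_pos trivial, ind_pos trivial]
    have hM : Mn (ind fun _ : ℕ => True) 1 := by
      have h2 := Pool.Agent.Y965.PL.Mn_const 1
      unfold Pool.Agent.Y965.PL.Mn at h2 ⊢
      refine h2.congr fun X => ?_
      congr 1
      apply Finset.sum_congr rfl
      intro n _
      rw [ind_pos trivial]
    have h3 : MnS id (ind (fun n => Ed m W a n ∧ True)) (ρ * 1) := cls_set hρ0.le hρ1 hc0 h2 hM
    have h4 : HasDensity (fun n => InClass m W a n) (ρ * β + 0) := by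
      unfold HasDensity at h0 ⊢
      have h5 := (hfin a)
      unfold HasDensity at h5
      refine (h5.add h0).congr fun X => ?_
      rw [count_ind, count_ind, count_ind, ← add_div, ← Finset.sum_add_distrib]
      congr 1
      apply Finset.sum_congr rfl
      intro n _
      rw [ind_and, ind_and]
      by_cases h6 : FiniteExcursion n
      · rw [ind_pos h6, ind_neg (P := fun n => ¬ FiniteExcursion n) (not_not.2 h6), mul_one, mul_zero, add_zero]
      · rw [ind_neg h6, ind_pos (P := fun n => ¬ FiniteExcursion n) h6, mul_one, mul_zero, zero_add]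
    have h5 : HasDensity (fun n => InClass m W a n) (ρ * 1) := along_of h3 fun n _ => by rw [hcl]; tauto
    have h6 := dens_unique h4 h5
    rw [add_zero] at h6
    have h7 : β = 1 := mul_left_cancel₀ hρ0.ne' h6
    exact hβall.1 h7
  · obtain ⟨_, _, hlim, hX⟩ := hw lam hl
    have h1 := cls_approx (E := Ed m W a) (B := fun K n => AK K lam n ∧ Bdd n) (b := fun K => rK K lam * β) hρ0.le hρ1
      (fun K n hn h => ⟨Pool.Agent.H499R2.ND.AK_of_bound hl hn h K, ⌊lam * n⌋₊, fun k => Nat.le_floor (h k)⟩)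
      (Mn_of_Dn hX) (fun K => Mn_of_Dn (Pool.Agent.H499R2.ND.dn_AK Bdd_inv hβ K lam)) (by
        have := hlim.mul_const β
        rw [mul_comm β]
        exact this) (fun K => hAKB K lam a)
    exact along_of h1 fun n _ => and_congr (hcl n) Iff.rfl
  · obtain ⟨_, _, hlim, hX⟩ := hw lam hl
    -- the law of the total stopping time
    have hP : ∀ x : ℝ, Pool.Agent.H499R2.ND.Dn (Pev r u v x) (δ / r ^ 2 * Pool.Agent.H499R2.ND.Phi x) := by
      intro x
      have h5 := (hlaw r u v hr).2 x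
      have e : δ * ProbabilityTheory.cdf (ProbabilityTheory.gaussianReal 0 1) x / (r : ℝ) ^ 2
          = δ / r ^ 2 * Pool.Agent.H499R2.ND.Phi x := by rw [Pool.Agent.H499R2.ND.phi_cdf]; ring
      rw [e] at h5
      exact h5
    have hPE := fun x => Pool.Agent.H499R2.HL.law_next hP x
    have hjoint := Pool.Agent.H499R2.HL.joint_exc hβ (fun n ⟨k, _, hk, _⟩ => Pool.Agent.H499R2.HL.Bdd_of_H hk) (hP x) (hPE x) hl hlim hX
    have hPev : ∀ (x : ℝ) (n : ℕ), Pev r u v x n ↔ Lv valK (clsK r u v) (th (2 / Real.log (4 / 3)) bK x) n := by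
      intro x n
      unfold Pool.Agent.H499R2.HL.Pev Pool.Agent.Y965.PL.Lv Pool.Agent.Y965.PL.valK Pool.Agent.Y965.PL.clsK Pool.Agent.Y965.PL.bK
      refine exists_congr fun k => ?_
      rw [Pool.Agent.Y965.PL.th_eq]
      unfold Pool.Agent.H499R2.HL.bk
      tauto
    have hcls : ∀ K : ℕ, MnS id (ind (fun n => Ed m W a n ∧ (AK K lam n ∧ Pev r u v x n)))
        (ρ * (rK K lam * (δ / r ^ 2 * Pool.Agent.H499R2.ND.Phi x))) := by
      intro K
      obtain ⟨C, c, hC, hc0, _, hT⟩ := ct_ress (adm3 (k := 1) odd_one) 1 0 hDD (M := 2 ^ K) (by exact Nat.one_le_two_pow)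
      have h1 := cls_law' (E := Ed m W a) (C := C)
        (L := fun t n => AK K lam n ∧ Lv valK (clsK r u v) (fun _ => t) n) hρ0.le hρ1 hc0
        (fun t t' htt n ⟨h1, k, h2, h3, h4⟩ => ⟨h1, k, h2, h3.trans htt, h4⟩)
        (fun t => by
          have h2 := Pool.Agent.Y965.PL.async_Fg (g := fun k o => if valK k o ≤ t ∧ clsK r u v k o then (1 : ℝ) else 0)
            (g0 := 0) (fun k o => by split_ifs <;> simp) (by simp)
          have h3 := ksync_async h2
          have h4 := hT 1 (Or.inl rfl) _ h3 a (AK K lam) (fun n => AK_mod K lam n)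
          refine h4.congr fun n => ?_
          rw [ind_and]
          simp only [Int.toNat_natCast]
          rw [← Pool.Agent.Y965.PL.ind_Lv_Fg]
          by_cases h5 : AK K lam n
          · rw [if_pos h5, ind_pos h5, one_mul]
          · rw [if_neg h5, ind_neg h5, zero_mul])
        (A := 2 / Real.log (4 / 3)) (b := bK) (by
          have := Real.log_pos (by norm_num : (1 : ℝ) < 4 / 3)
          positivity) bK_pos
        (dd := fun x => rK K lam * (δ / r ^ 2 * Pool.Agent.H499R2.ND.Phi x))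
        ((Pool.Agent.H499R2.ND.Phi_continuous.const_mul _).const_mul _)
        (fun y => by
          have h2 := Mn_of_Dn (Pool.Agent.H499R2.HL.dn_AK' (hP y) (hPE y) K lam)
          unfold Pool.Agent.Y965.PL.Mn at h2 ⊢
          refine h2.congr fun X => ?_
          congr 1
          apply Finset.sum_congr rfl
          intro n _
          exact ind_congr (and_congr Iff.rfl (hPev y n))) x
      unfold Pool.Agent.Y965.PL.MnS at h1 ⊢
      refine h1.congr fun X => ?_
      congr 1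
      apply Finset.sum_congr rfl
      intro n _
      exact ind_congr (and_congr Iff.rfl (and_congr Iff.rfl (hPev x _).symm))
    have h1 := cls_approx (E := Ed m W a) (A := fun n => Pev r u v x n ∧ ∀ k, ((Tn^[k] n : ℕ) : ℝ) ≤ lam * n)
      (B := fun K n => AK K lam n ∧ Pev r u v x n)
      (b := fun K => rK K lam * (δ / r ^ 2 * Pool.Agent.H499R2.ND.Phi x)) hρ0.le hρ1
      (fun K n hn h => ⟨Pool.Agent.H499R2.ND.AK_of_bound hl hn h.2 K, h.1⟩)
      (Mn_of_Dn hjoint) (fun K => Mn_of_Dn (Pool.Agent.H499R2.HL.dn_AK' (hP x) (hPE x) K lam)) (by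
        have := hlim.mul_const (δ / r ^ 2 * Pool.Agent.H499R2.ND.Phi x)
        rw [mul_comm (δ / (r : ℝ) ^ 2 * Pool.Agent.H499R2.ND.Phi x)]
        exact this) hcls
    have e : δ / (r : ℝ) ^ 2 * Pool.Agent.H499R2.ND.Phi x * w lam = δ * w lam * Phi x / r ^ 2 := by
      unfold Phi
      rw [← Pool.Agent.H499R2.ND.phi_cdf]
      ring
    rw [e] at h1
    refine along_of h1 fun n _ => and_congr (hcl n) ?_
    rw [and_comm]
    exact Iff.rfl

end Pool.Agent.Results.MP_0a5adf_nt.DigitClassesExcursions
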