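import Pool.Agent.Run7.h702.BC.J

set_option autoImplicit false

/-!
# The excursions of all the terms of almost every trajectory of the `3x+1` map

Let `T` be the accelerated `3x+1` map and let `F` be any function which tends to infinity. Consider the trajectory of `n`
down to its first value smaller than `F n`, and in this part of the trajectory the excursion of *every* term `x`: the
largest later value.

(1), (2) For almost all `n` (natural density one) the excursion of every term `x` is at most `x (log x)^(1 + ε)`, for every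
fixed `ε > 0`. The number of the exceptions `n ≤ N`, for a constant bound `Y` in the place of `F n`, is at most
`K N / (log Y)^η`, for all `Y` and `N`.

(3) The exponent `1` is exact: for almost all `n` (all but `K N exp (-(log N)^δ)` of the `n ≤ N`) already the part of the
trajectory above `√n` has a term `x` whose excursion, in this part, is larger than `x (log x)^(1 - ε)`.

(4) Hence, for every `F` with `F n ≤ √n` and `F n → ∞`, the smallest exponent `s` such that all the excursions are at most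
`x (log x)^s` lies between `1 - ε` and `1 + ε` for almost all `n`.

The theorem of Tao, in natural density, gives the descent below `F n`. The trajectory has about `log n` terms down to
`F n`, on all the scales between `F n` and `n`; a term of size `e^l` has an excursion larger than `λ x` with a probability
of about `1 / λ`, so that (2) is a Borel-Cantelli lemma (`∑ l^(-1-ε) < ∞`) for the successive scales of one trajectory,
with no loss in the exponent. It is proved in `Run7/h702/AT`, `Run7/h702/BC` for all the sets which have a density of at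
most `(log X)^(-1-ε)` in the residue classes modulo the powers of `3` up to `exp (C (log X)^(ε / 2))`, from the mixing of
the Syracuse random variables (starting libraries `H499R2`, `R344/TH`).
-/

namespace Pool.Agent.Results.MP_0a5adf_nt.ExcursionsOfAllTerms

open Filter Topology

/-- The accelerated `3x+1` map. -/
def T (n : ℕ) : ℕ := if n % 2 = 0 then n / 2 else (3 * n + 1) / 2

/-- The number of the `n`, `1 ≤ n ≤ N`, with the property `P`. -/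
noncomputable def count (P : ℕ → Prop) (N : ℕ) : ℝ := (Set.ncard {n : ℕ | 1 ≤ n ∧ n ≤ N ∧ P n} : ℝ)

/-- Almost all `n` have the property `P`: natural density one. -/
def AlmostAll (P : ℕ → Prop) : Prop := Tendsto (fun N : ℕ => count P N / N) atTop (𝓝 1)

/-- `T^k n` is the first value smaller than `Y`. -/
def IsEnd (Y : ℝ) (n k : ℕ) : Prop := ((T^[k] n : ℕ) : ℝ) < Y ∧ ∀ j < k, Y ≤ ((T^[j] n : ℕ) : ℝ)

/-- The trajectory of `n` takes a value smaller than `Y`, and for every term `x = T^i n` before the first such value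
`T^k n` all the later terms up to `T^k n` are at most `x (log x) ^ s`. -/
def AllExcursionsLE (s Y : ℝ) (n : ℕ) : Prop :=
  ∃ k : ℕ, IsEnd Y n k ∧ ∀ i j : ℕ, i < k → i ≤ j → j ≤ k →
    ((T^[j] n : ℕ) : ℝ) ≤ ((T^[i] n : ℕ) : ℝ) * Real.log ((T^[i] n : ℕ) : ℝ) ^ s

/-- There is a term `x = T^i n` and a later term larger than `x (log x) ^ s`, the terms of the trajectory up to the latter
being all at least `Y`. -/
def HasExcursionGT (s Y : ℝ) (n : ℕ) : Prop :=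
  ∃ i j : ℕ, i ≤ j ∧ (∀ l ≤ j, Y ≤ ((T^[l] n : ℕ) : ℝ)) ∧
    ((T^[i] n : ℕ) : ℝ) * Real.log ((T^[i] n : ℕ) : ℝ) ^ s < ((T^[j] n : ℕ) : ℝ)

theorem T_eq : T = Run7.h702.BC.Tn := rfl

theorem all_of {c ε Y : ℝ} {n : ℕ} (h : Run7.h702.BC.TypN c ε Y n) : AllExcursionsLE (1 + ε) Y n := by
  obtain ⟨k, h1, h2, h3⟩ := h
  refine ⟨k, ⟨h1, h2⟩, fun i j hi hij hj => ?_⟩
  have := (h3 i hi (j - i) (by omega)).2.2
  rw [Nat.add_sub_cancel' hij] at this
  exact this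

theorem mono {s Y Y' : ℝ} {n : ℕ} (hY : Y ≤ Y') (h : AllExcursionsLE s Y n) : AllExcursionsLE s Y' n := by
  classical
  obtain ⟨k, ⟨h1, h2⟩, h3⟩ := h
  have hex : ∃ k : ℕ, ((T^[k] n : ℕ) : ℝ) < Y' := ⟨k, lt_of_lt_of_le h1 hY⟩
  have hle : Nat.find hex ≤ k := Nat.find_min' hex (lt_of_lt_of_le h1 hY)
  refine ⟨Nat.find hex, ⟨Nat.find_spec hex, fun j hj => not_lt.1 (Nat.find_min hex hj)⟩, fun i j hi hij hj => ?_⟩
  exact h3 i j (by omega) hij (by omega)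

theorem part1 {ε : ℝ} (hε0 : 0 < ε) (hε : ε ≤ 1) : ∃ η K : ℝ, 0 < η ∧ 0 < K ∧ ∀ Y : ℝ, 2 ≤ Y → ∀ N : ℕ,
    count (fun n => ¬ AllExcursionsLE (1 + ε) Y n) N ≤ K * N / (Real.log Y) ^ η := by
  obtain ⟨η, K, hη, hK, h⟩ := Run7.h702.BC.typ_nat (c := 3 / 4) (by norm_num) (by norm_num) hε0 hε
  refine ⟨η, K, hη, hK, fun Y hY N => le_trans ?_ (h Y hY N)⟩
  unfold count
  have hfin : {n : ℕ | 1 ≤ n ∧ n ≤ N ∧ ¬ Run7.h702.BC.TypN (3 / 4) ε Y n}.Finite :=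
    (Set.finite_Icc 1 N).subset (fun n hn => ⟨hn.1, hn.2.1⟩)
  have : {n : ℕ | 1 ≤ n ∧ n ≤ N ∧ ¬ AllExcursionsLE (1 + ε) Y n} ⊆
      {n : ℕ | 1 ≤ n ∧ n ≤ N ∧ ¬ Run7.h702.BC.TypN (3 / 4) ε Y n} :=
    fun n hn => ⟨hn.1, hn.2.1, fun h => hn.2.2 (all_of h)⟩
  exact_mod_cast Set.ncard_le_ncard this hfin

theorem part2 {ε : ℝ} (hε0 : 0 < ε) (hε : ε ≤ 1) (F : ℕ → ℝ) (hF : Tendsto F atTop atTop) :
    AlmostAll (fun n => AllExcursionsLE (1 + ε) (F n) n) := by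
  obtain ⟨η, K, hη, hK, h⟩ := part1 hε0 hε
  exact Run7.h702.BC.density_one (D := fun Y n => AllExcursionsLE (1 + ε) Y n)
    (fun Y Y' n hY h => mono hY h) hη hK h F hF

theorem part3 {ε : ℝ} (hε0 : 0 < ε) (hε : ε < 1) : ∃ δ K : ℝ, 0 < δ ∧ 0 < K ∧ ∀ N : ℕ, 1 ≤ N →
    count (fun n => ¬ HasExcursionGT (1 - ε) (Real.sqrt n) n) N ≤ K * N * Real.exp (-(Real.log N) ^ δ) := by
  obtain ⟨K, hK, h⟩ := Run7.h702.BC.exc_nat hε0 hε
  refine ⟨ε / 16, K, by linarith, hK, fun N hN => le_trans ?_ (h N hN)⟩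
  unfold count
  have hfin : {n : ℕ | 1 ≤ n ∧ n ≤ N ∧ ¬ Run7.h702.BC.ExcN (1 - ε) n}.Finite :=
    (Set.finite_Icc 1 N).subset (fun n hn => ⟨hn.1, hn.2.1⟩)
  have : {n : ℕ | 1 ≤ n ∧ n ≤ N ∧ ¬ HasExcursionGT (1 - ε) (Real.sqrt n) n} ⊆
      {n : ℕ | 1 ≤ n ∧ n ≤ N ∧ ¬ Run7.h702.BC.ExcN (1 - ε) n} := by
    rintro n ⟨h1, h2, h3⟩
    refine ⟨h1, h2, fun h => h3 ?_⟩
    obtain ⟨i, m, _, h4, h5⟩ := h
    exact ⟨i, i + m, by omega, h4, h5⟩
  exact_mod_cast Set.ncard_le_ncard this hfin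

theorem HasExcursionGT.mono {s Y Y' : ℝ} {n : ℕ} (hY : Y' ≤ Y) (h : HasExcursionGT s Y n) :
    HasExcursionGT s Y' n := by
  obtain ⟨i, j, h1, h2, h3⟩ := h
  exact ⟨i, j, h1, fun l hl => hY.trans (h2 l hl), h3⟩

theorem result :
    (∀ ε : ℝ, 0 < ε → ε ≤ 1 → ∃ η K : ℝ, 0 < η ∧ 0 < K ∧ ∀ Y : ℝ, 2 ≤ Y → ∀ N : ℕ,
      count (fun n => ¬ AllExcursionsLE (1 + ε) Y n) N ≤ K * N / (Real.log Y) ^ η) ∧
    (∀ ε : ℝ, 0 < ε → ε ≤ 1 → ∀ F : ℕ → ℝ, Tendsto F atTop atTop →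
      AlmostAll (fun n => AllExcursionsLE (1 + ε) (F n) n)) ∧
    (∀ ε : ℝ, 0 < ε → ε < 1 → ∃ δ K : ℝ, 0 < δ ∧ 0 < K ∧ ∀ N : ℕ, 1 ≤ N →
      count (fun n => ¬ HasExcursionGT (1 - ε) (Real.sqrt n) n) N ≤ K * N * Real.exp (-(Real.log N) ^ δ)) ∧
    (∀ ε : ℝ, 0 < ε → ε < 1 → ∀ F : ℕ → ℝ, Tendsto F atTop atTop → (∀ n, F n ≤ Real.sqrt n) →
      AlmostAll (fun n => AllExcursionsLE (1 + ε) (F n) n ∧ HasExcursionGT (1 - ε) (F n) n)) := by
  refine ⟨fun ε h0 h1 => part1 h0 h1, fun ε h0 h1 F hF => part2 h0 h1 F hF, fun ε h0 h1 => part3 h0 h1,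
    fun ε h0 h1 F hF hF2 => ?_⟩
  have h2 := part2 h0 h1.le F hF
  obtain ⟨δ, K, hδ, _, h3⟩ := part3 h0 h1
  have h4 : AlmostAll (fun n => HasExcursionGT (1 - ε) (F n) n) := by
    apply Run7.h702.BC.density_exp hδ (K := K)
    intro N hN
    refine le_trans ?_ (h3 N hN)
    unfold count
    have hfin : {n : ℕ | 1 ≤ n ∧ n ≤ N ∧ ¬ HasExcursionGT (1 - ε) (Real.sqrt n) n}.Finite :=
      (Set.finite_Icc 1 N).subset (fun n hn => ⟨hn.1, hn.2.1⟩)
    have : {n : ℕ | 1 ≤ n ∧ n ≤ N ∧ ¬ HasExcursionGT (1 - ε) (F n) n} ⊆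
        {n : ℕ | 1 ≤ n ∧ n ≤ N ∧ ¬ HasExcursionGT (1 - ε) (Real.sqrt n) n} :=
      fun n hn => ⟨hn.1, hn.2.1, fun h => hn.2.2 (h.mono (hF2 n))⟩
    exact_mod_cast Set.ncard_le_ncard this hfin
  -- the intersection
  unfold AlmostAll at h2 h4 ⊢
  have h5 := (h2.add h4).sub_const 1
  rw [show (1 : ℝ) + 1 - 1 = 1 by norm_num] at h5
  refine tendsto_of_tendsto_of_tendsto_of_le_of_le' h5 tendsto_const_nhds ?_ ?_
  · filter_upwards [eventually_ge_atTop 1] with N hN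
    have hNR : (0 : ℝ) < N := by exact_mod_cast hN
    unfold count
    rw [← add_div]
    have key : ((Set.ncard {n : ℕ | 1 ≤ n ∧ n ≤ N ∧ AllExcursionsLE (1 + ε) (F n) n} : ℕ) : ℝ) +
        ((Set.ncard {n : ℕ | 1 ≤ n ∧ n ≤ N ∧ HasExcursionGT (1 - ε) (F n) n} : ℕ) : ℝ) ≤
        ((Set.ncard {n : ℕ | 1 ≤ n ∧ n ≤ N ∧ (AllExcursionsLE (1 + ε) (F n) n ∧ HasExcursionGT (1 - ε) (F n) n)} : ℕ) : ℝ) + N := by
      have f1 : {n : ℕ | 1 ≤ n ∧ n ≤ N ∧ AllExcursionsLE (1 + ε) (F n) n}.Finite :=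
        (Set.finite_Icc 1 N).subset (fun n hn => ⟨hn.1, hn.2.1⟩)
      have f2 : {n : ℕ | 1 ≤ n ∧ n ≤ N ∧ HasExcursionGT (1 - ε) (F n) n}.Finite :=
        (Set.finite_Icc 1 N).subset (fun n hn => ⟨hn.1, hn.2.1⟩)
      have e1 := Set.ncard_union_add_ncard_inter _ _ f1 f2
      have e2 : {n : ℕ | 1 ≤ n ∧ n ≤ N ∧ AllExcursionsLE (1 + ε) (F n) n} ∩
          {n : ℕ | 1 ≤ n ∧ n ≤ N ∧ HasExcursionGT (1 - ε) (F n) n} =
          {n : ℕ | 1 ≤ n ∧ n ≤ N ∧ (AllExcursionsLE (1 + ε) (F n) n ∧ HasExcursionGT (1 - ε) (F n) n)} := by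
        ext n
        constructor
        · rintro ⟨a, b⟩
          exact ⟨a.1, a.2.1, a.2.2, b.2.2⟩
        · rintro ⟨a, b, c, d⟩
          exact ⟨⟨a, b, c⟩, ⟨a, b, d⟩⟩
      have e3 : ({n : ℕ | 1 ≤ n ∧ n ≤ N ∧ AllExcursionsLE (1 + ε) (F n) n} ∪
          {n : ℕ | 1 ≤ n ∧ n ≤ N ∧ HasExcursionGT (1 - ε) (F n) n}).ncard ≤ N := by
        have h6 : ({n : ℕ | 1 ≤ n ∧ n ≤ N ∧ AllExcursionsLE (1 + ε) (F n) n} ∪
          {n : ℕ | 1 ≤ n ∧ n ≤ N ∧ HasExcursionGT (1 - ε) (F n) n}) ⊆ ((Finset.Icc 1 N : Finset ℕ) : Set ℕ) := by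
          rintro n (h | h)
          · rw [Finset.mem_coe, Finset.mem_Icc]; exact ⟨h.1, h.2.1⟩
          · rw [Finset.mem_coe, Finset.mem_Icc]; exact ⟨h.1, h.2.1⟩
        have h7 := Set.ncard_le_ncard h6 (Finset.finite_toSet _)
        rw [Set.ncard_coe_finset, Nat.card_Icc] at h7
        omega
      rw [e2] at e1
      have e4 : (Set.ncard {n : ℕ | 1 ≤ n ∧ n ≤ N ∧ AllExcursionsLE (1 + ε) (F n) n}) +
        (Set.ncard {n : ℕ | 1 ≤ n ∧ n ≤ N ∧ HasExcursionGT (1 - ε) (F n) n}) ≤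
        (Set.ncard {n : ℕ | 1 ≤ n ∧ n ≤ N ∧ (AllExcursionsLE (1 + ε) (F n) n ∧ HasExcursionGT (1 - ε) (F n) n)}) + N := by
        omega
      exact_mod_cast e4
    have e5 := div_le_div_of_nonneg_right key hNR.le
    rw [add_div _ (N : ℝ), div_self hNR.ne'] at e5
    linarith
  · filter_upwards [eventually_ge_atTop 1] with N hN
    have hNR : (0 : ℝ) < N := by exact_mod_cast hN
    unfold count
    rw [div_le_one hNR]
    have h6 : {n : ℕ | 1 ≤ n ∧ n ≤ N ∧ (AllExcursionsLE (1 + ε) (F n) n ∧ HasExcursionGT (1 - ε) (F n) n)} ⊆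
        ((Finset.Icc 1 N : Finset ℕ) : Set ℕ) := by
      intro n hn
      rw [Finset.mem_coe, Finset.mem_Icc]; exact ⟨hn.1, hn.2.1⟩
    have h7 := Set.ncard_le_ncard h6 (Finset.finite_toSet _)
    rw [Set.ncard_coe_finset, Nat.card_Icc] at h7
    have h8 : Set.ncard {n : ℕ | 1 ≤ n ∧ n ≤ N ∧ (AllExcursionsLE (1 + ε) (F n) n ∧ HasExcursionGT (1 - ε) (F n) n)} ≤ N := by
      omega
    exact_mod_cast h8

end Pool.Agent.Results.MP_0a5adf_nt.ExcursionsOfAllTerms
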