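import Pool.Agent.Run7.h792.FL.Approx
import Pool.Agent.Run7.h792.FL.Inv
import Pool.Agent.H499R2.HL.E

set_option autoImplicit false

/-!
# Maximum excursions and functions modulo large odd numbers

Fix `0 < ε < 1`. At the scale `N`, the functions which are constant along the trajectories are independent, with
a power saving which is uniform in the function, of every function of `n` modulo an odd `q` between `N ^ ε` and
`N ^ (1 - ε)` whose Fourier coefficients at the nonzero frequencies are at most `q ^ (1 / 2 + η)`. So the integers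
with finite maximum excursion have their proportional share in every set of residues of this kind, for example
in the quadratic residues modulo a prime between `N ^ ε` and `N ^ (1 - ε)`; in such sets of positive density the
law of the ratio of the maximum excursion and the starting value, and its joint law with the total stopping
time, are the same as for all integers.

Method: the dispersion argument of `Pool.Agent.Run7.h439.DC.Orth` at a level which is a small proportion of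
`log q`; the correlations of the function along the progressions modulo the powers of two are, up to `O(q)`,
autocorrelations over whole periods, and the sum of the squares of the latter is bounded by Parseval.
-/

namespace Pool.Agent.Results.MP_0a5adf_nt.FlatResidues

open Filter Topology

/-- the accelerated `3x+1` map -/
def T (n : ℕ) : ℕ := if n % 2 = 0 then n / 2 else (3 * n + 1) / 2

/-- `t(n) < ∞` -/
def FiniteExcursion (n : ℕ) : Prop := ∃ M : ℕ, ∀ k, T^[k] n ≤ M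

/-- `t(n) ≤ c` -/
def ExcursionLE (n : ℕ) (c : ℝ) : Prop := ∀ k, (T^[k] n : ℝ) ≤ c

/-- `k` is the first time at which the trajectory of `n` visits `1` -/
def IsTotalStoppingTime (n k : ℕ) : Prop := T^[k] n = 1 ∧ ∀ j < k, T^[j] n ≠ 1

/-- the number of odd terms among `n, T n, ..., T^(k-1) n` -/
def odds (k n : ℕ) : ℕ := ((Finset.range k).filter fun i => T^[i] n % 2 = 1).card

/-- `f` has period `q`, values of modulus at most `1`, and its Fourier coefficients at the nonzero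
frequencies have modulus at most `q ^ (1 / 2 + η)`. -/
structure Flat (q : ℕ) (η : ℝ) (f : ℕ → ℂ) : Prop where
  bounded : ∀ n, ‖f n‖ ≤ 1
  periodic : ∀ n, f (n + q) = f n
  fourier : ∀ h : ℕ, 0 < h → h < q →
    ‖∑ a ∈ Finset.range q, f a * Complex.exp (2 * Real.pi * Complex.I * (h * a) / q)‖ ≤ (q : ℝ) ^ (1 / 2 + η)

/-- the mean value of a function with period `q` -/
noncomputable def mean (q : ℕ) (f : ℕ → ℂ) : ℂ := (∑ a ∈ Finset.range q, f a) / q

/-- `A` is a subset of `{0, ..., q - 1}`, and the indicator function of the integers which are congruent to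
an element of `A` modulo `q` is `Flat`. -/
def FlatSet (q : ℕ) (η : ℝ) (A : Finset ℕ) : Prop :=
  A ⊆ Finset.range q ∧ Flat q η (fun n => if n % q ∈ A then 1 else 0)

/-- `q` is odd and `N ^ ε ≤ q ≤ N ^ (1 - ε)`. -/
def InRange (ε : ℝ) (N q : ℕ) : Prop := Odd q ∧ (N : ℝ) ^ ε ≤ q ∧ (q : ℝ) ≤ (N : ℝ) ^ (1 - ε)

/-- the number of the `1 ≤ n ≤ X` with the property `P` -/
noncomputable def count (P : ℕ → Prop) (X : ℕ) : ℝ := (Set.ncard {n : ℕ | 1 ≤ n ∧ n ≤ X ∧ P n} : ℝ)

/-- The set of the positive integers with the property `P` has natural density `l`. -/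
def HasDensity (P : ℕ → Prop) (l : ℝ) : Prop := Tendsto (fun X : ℕ => count P X / X) atTop (𝓝 l)

/-- words `w` of length `K` over `{0,1}` with `3^(w_0+...+w_(k-1)) / 2^k < lam` for `1 ≤ k ≤ K` -/
def safeWords (K : ℕ) (lam : ℝ) : Set (Fin K → Fin 2) :=
  {w | ∀ k, 1 ≤ k → k ≤ K →
    (3 : ℝ) ^ (∑ i ∈ Finset.univ.filter (fun i : Fin K => (i : ℕ) < k), (w i : ℕ)) < lam * 2 ^ k}

/-- `2 / log (4/3) * log n + x * log 3 * √(2 log n / (log (4/3))^3)` -/
noncomputable def bound (x : ℝ) (n : ℕ) : ℝ :=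
  2 / Real.log (4 / 3) * Real.log n
    + x * (Real.log 3 * Real.sqrt (2 * Real.log n / Real.log (4 / 3) ^ 3))

/-- The distribution function of the standard normal law. -/
noncomputable def Phi (x : ℝ) : ℝ :=
  ProbabilityTheory.cdf (ProbabilityTheory.gaussianReal 0 1) x

open Pool.Agent.Run7.h792.FL
open Pool.Agent.Run7.h439.DC
open Pool.Agent.H319R3.GC (Tm Adm)
open Pool.Agent.Y965.PS (Tz)
open Pool.Agent.Y965.PL (Mn MnS th ind ind_pos ind_neg ind_congr ind_nonneg clsK bK Mn_of_Dn)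
open Pool.Agent.H499R2.ND (Tn Bdd AK rK Bdd_inv AK_mod)
open Pool.Agent.H499R2.HL (H Pev)

theorem T_eq : T = Tn := by funext a; rfl

theorem count_ind (P : ℕ → Prop) (X : ℕ) : count P X = ∑ n ∈ Finset.Icc 1 X, ind P n := by
  classical
  unfold ind count
  rw [Finset.sum_boole]
  have e : {n : ℕ | 1 ≤ n ∧ n ≤ X ∧ P n} = ((Finset.Icc 1 X).filter fun n => P n : Finset ℕ) := by
    ext n
    simp only [Set.mem_ofPred_eq, Finset.coe_filter, Finset.mem_Icc, and_assoc]
  rw [e, Set.ncard_coe_finset]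

theorem along_of {P Q : ℕ → Prop} {d : ℝ} (h : Mn (ind Q) d) (hPQ : ∀ n, 1 ≤ n → (P n ↔ Q n)) : HasDensity P d := by
  unfold HasDensity
  unfold Mn at h
  refine h.congr fun X => ?_
  rw [count_ind P X]
  congr 1
  apply Finset.sum_congr rfl
  intro n hn
  exact ind_congr (hPQ _ (Finset.mem_Icc.1 hn).1).symm

open Classical in
/-- the extension of a function on the positive integers to all integers -/
theorem sync_of {F : ℕ → ℝ} (hb : ∀ n, |F n| ≤ 1) (hF : ∀ n, F (T n) = F n) : KSync 2 m3 (r3 1) 1 1 0 F := by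
  have h1 := ksync_f (d := 2) (mm := m3) (r := r3 1) (s := 1) (f := fun x : ℤ => if 0 < x then F x.toNat else 0)
    (fun x => by
      split_ifs
      · exact hb _
      · simp) (fun x => by
      rw [Tm3]
      by_cases hx : 0 < x
      · obtain ⟨n, rfl⟩ : ∃ n : ℕ, x = n := ⟨x.toNat, by omega⟩
        have hn : 0 < n := by exact_mod_cast hx
        rw [Pool.Agent.Y965.PL.Tz_nat]
        have h2 : 0 < Tn n := by
          unfold Pool.Agent.H499R2.ND.Tn
          split_ifs <;> omega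
        rw [if_pos (by exact_mod_cast h2), if_pos hx, Int.toNat_natCast, Int.toNat_natCast]
        exact hF n
      · have h2 : ¬ 0 < Tz 1 x := by
          unfold Pool.Agent.Y965.PS.Tz
          split_ifs <;> omega
        rw [if_neg h2, if_neg hx])
  refine ⟨hb, fun k hk n n' hn hn' he => ?_⟩
  have h2 := h1.2 k hk n n' hn hn' he
  have hn0 : 0 < n := lt_of_le_of_lt (Nat.zero_le _) hn
  have hn0' : 0 < n' := lt_of_le_of_lt (Nat.zero_le _) hn'
  simp only [one_mul] at h2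
  rw [if_pos (by exact_mod_cast hn0), if_pos (by exact_mod_cast hn0'), Int.toNat_natCast, Int.toNat_natCast] at h2
  exact h2

/-- MAXIMUM EXCURSIONS AND FUNCTIONS MODULO LARGE ODD NUMBERS. Let `β > 0` be the natural density of the `n` with
`t(n) < ∞`, let `δ > 0` be that of the `n` which reach `1`, and for `lam ≥ 1` let `w lam ≥ 1 - 1 / lam` be the limit
of the proportion of the safe words. For every `0 < ε < 1` there are `η`, `c`, `K > 0` with the following
properties; `N ≥ 1`, and `q` is odd with `N ^ ε ≤ q ≤ N ^ (1 - ε)`.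

(1) (Uniform transfer.) For every `g` with period `q` and modulus at most `1` whose Fourier coefficients at
the nonzero frequencies are at most `q ^ (1 / 2 + η)`, all functions `F` with `F (T n) = F n` and `|F| ≤ 1` and all
`X ≤ N` the sum over the `n ≤ X` of `F n` times `g(n)` minus the mean value of `g` has modulus at most
`K N ^ (1 - c)`.

(2) Let `0 ≤ v < c` and `τ > 0`. For all large `N`, all `q` and all flat sets `A` of residues modulo `q` with
`|A| ≥ q N ^ (-v)` the number of the `n ≤ N` in the classes of `A` with `t(n) < ∞` is `β |A| / q * N` up to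
`τ |A| / q * N`, and, for `lam ≥ 1`, at most `(β * w lam + τ) |A| / q * N` of the `n ≤ N` in the classes of `A` have
`t(n) ≤ lam n`.

(3) Let `0 ≤ v < c`. If there are for infinitely many `N` a number `q` and a flat `A` with `|A| ≥ q N ^ (-v)` such
that `t(n) = ∞` for at most `o(|A| / q * N)` of the `n ≤ N` in the classes of `A`, then `t(n) < ∞` for all `n`.

(4) Let `κ > 0`, `τ > 0` and `lam ≥ 1`. For all large `N`, all `q` and all flat `A` with `|A| ≥ κ q`, up to
`τ |A| / q * N`: `t(n) ≤ lam n` for `β * w lam * |A| / q * N` of the `n ≤ N` in the classes of `A`; and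
`δ * w lam * Phi x / r ^ 2 * |A| / q * N` of them have `t(n) ≤ lam n` and reach `1` for the first time at a time
`k ≤ bound x n`, `k ≡ a`, with a number of odd terms before `≡ b` modulo `r`.

(5) (Examples.) The hypothesis on `g` holds for the primitive Dirichlet characters modulo `q`, for
`exp (2 π i (a n ^ 2 + b n) / q)` with `a` coprime to `q`, and the hypothesis on `A` holds if `q = p` is prime and `A`
is invariant under multiplication by the `k`-th powers coprime to `p`, where `k + 1 ≤ p ^ (2 η)`. -/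
theorem result : ∃ (β δ : ℝ) (w : ℝ → ℝ), 0 < β ∧ β ≤ 1 ∧ 0 < δ ∧ δ ≤ 1 ∧ HasDensity FiniteExcursion β ∧
    HasDensity (fun n => ∃ k, T^[k] n = 1) δ ∧
    (∀ lam : ℝ, 1 ≤ lam → 1 - 1 / lam ≤ w lam ∧ w lam ≤ 1 ∧
      Tendsto (fun K : ℕ => ((safeWords K lam).ncard : ℝ) / 2 ^ K) atTop (𝓝 (w lam))) ∧
    ∀ ε : ℝ, 0 < ε → ε < 1 → ∃ η c K : ℝ, 0 < η ∧ 0 < c ∧ c < 1 ∧ 0 < K ∧
    (∀ N q : ℕ, 1 ≤ N → InRange ε N q → ∀ g : ℕ → ℂ, Flat q η g → ∀ F : ℕ → ℝ, (∀ n, |F n| ≤ 1) →
      (∀ n, F (T n) = F n) → ∀ X : ℕ, X ≤ N →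
      ‖∑ n ∈ Finset.Icc 1 X, (F n : ℂ) * (g n - mean q g)‖ ≤ K * (N : ℝ) ^ (1 - c)) ∧
    (∀ v : ℝ, 0 ≤ v → v < c → ∀ τ : ℝ, 0 < τ →
      (∃ N₀ : ℕ, ∀ N : ℕ, N₀ ≤ N → ∀ q : ℕ, InRange ε N q → ∀ A : Finset ℕ, FlatSet q η A →
        (q : ℝ) * (N : ℝ) ^ (-v) ≤ A.card →
        |count (fun n => n % q ∈ A ∧ FiniteExcursion n) N - β * (A.card / q * N)| ≤ τ * (A.card / q * N)) ∧
      ∀ lam : ℝ, 1 ≤ lam → ∃ N₀ : ℕ, ∀ N : ℕ, N₀ ≤ N → ∀ q : ℕ, InRange ε N q → ∀ A : Finset ℕ, FlatSet q η A →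
        (q : ℝ) * (N : ℝ) ^ (-v) ≤ A.card →
        count (fun n => n % q ∈ A ∧ ExcursionLE n (lam * n)) N ≤ (β * w lam + τ) * (A.card / q * N)) ∧
    (∀ v : ℝ, 0 ≤ v → v < c → ∀ ψ : ℕ → ℝ, Tendsto ψ atTop (𝓝 0) →
      (∃ᶠ N : ℕ in atTop, ∃ q : ℕ, InRange ε N q ∧ ∃ A : Finset ℕ, FlatSet q η A ∧ (q : ℝ) * (N : ℝ) ^ (-v) ≤ A.card ∧
        count (fun n => n % q ∈ A ∧ ¬ FiniteExcursion n) N ≤ ψ N * (A.card / q * N)) →
      ∀ n : ℕ, 1 ≤ n → FiniteExcursion n) ∧
    (∀ κ : ℝ, 0 < κ → ∀ τ : ℝ, 0 < τ → ∀ lam : ℝ, 1 ≤ lam →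
      (∃ N₀ : ℕ, ∀ N : ℕ, N₀ ≤ N → ∀ q : ℕ, InRange ε N q → ∀ A : Finset ℕ, FlatSet q η A → κ * q ≤ A.card →
        |count (fun n => n % q ∈ A ∧ ExcursionLE n (lam * n)) N - β * w lam * (A.card / q * N)| ≤
          τ * (A.card / q * N)) ∧
      ∀ (r : ℕ) (a b : ℤ), 1 ≤ r → ∀ x : ℝ, ∃ N₀ : ℕ, ∀ N : ℕ, N₀ ≤ N → ∀ q : ℕ, InRange ε N q →
        ∀ A : Finset ℕ, FlatSet q η A → κ * q ≤ A.card →
        |count (fun n => n % q ∈ A ∧ ExcursionLE n (lam * n) ∧ ∃ k : ℕ, (k : ℝ) ≤ bound x n ∧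
            IsTotalStoppingTime n k ∧ (k : ℤ) ≡ a [ZMOD r] ∧ (odds k n : ℤ) ≡ b [ZMOD r]) N -
          δ * w lam * Phi x / r ^ 2 * (A.card / q * N)| ≤ τ * (A.card / q * N)) ∧
    (∀ (q : ℕ) (χ : DirichletCharacter ℂ q), 1 ≤ q → χ.IsPrimitive → Flat q η (fun n => χ n)) ∧
    (∀ (q : ℕ) (a b : ℤ), Odd q → IsCoprime a q →
      Flat q η (fun n => Complex.exp (2 * Real.pi * Complex.I * (a * n ^ 2 + b * n) / q))) ∧
    (∀ p k : ℕ, p.Prime → 1 ≤ k → (k : ℝ) + 1 ≤ (p : ℝ) ^ (2 * η) → ∀ A : Finset ℕ, A ⊆ Finset.range p →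
      (∀ b : ℕ, Nat.Coprime b p → ∀ a ∈ A, b ^ k * a % p ∈ A) → FlatSet p η A) := by
  classical
  obtain ⟨β, hβ0, hβ1, hβall, hβ⟩ := Pool.Agent.H499R2.ND.Bdd_density
  obtain ⟨δ, hδ0, hδ1, _, hδ, hlaw⟩ := Pool.Agent.H499R2.LT.law_one
  have h : ∀ lam : ℝ, ∃ q : ℝ, 1 ≤ lam → 1 - 1 / lam ≤ q ∧ q ≤ 1 ∧
      Tendsto (fun K => rK K lam) atTop (𝓝 q) ∧
      Pool.Agent.H499R2.ND.Dn (fun n => ∀ k, ((Tn^[k] n : ℕ) : ℝ) ≤ lam * n) (β * q) := by
    intro lam
    by_cases hl : 1 ≤ lam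
    · obtain ⟨q, g1, g2, g3, g4⟩ := Pool.Agent.H499R2.ND.exc_law hβ hl
      exact ⟨q, fun _ => ⟨g2, g3, g1, g4⟩⟩
    · exact ⟨0, fun h' => absurd h' hl⟩
  choose w hw using h
  have hMβ : Mn (ind Bdd) β := Mn_of_Dn hβ
  have hMδ : Mn (ind fun n => ∃ k, Tn^[k] n = 1) δ := Mn_of_Dn hδ
  refine ⟨β, δ, w, hβ0, hβ1, hδ0, hδ1, along_of hMβ fun n _ => Iff.rfl, along_of hMδ fun n _ => Iff.rfl,
    fun lam hl => ?_, fun ε hε hε1 => ?_⟩
  · obtain ⟨g1, g2, g3, _⟩ := hw lam hl
    exact ⟨g1, g2, g3.congr fun K => Pool.Agent.H499R2.ND.rK_words K lam⟩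
  have hBs : ∀ n, ind Bdd (T n) = ind Bdd n := by
    intro n
    by_cases h : Bdd n
    · rw [ind_pos h, ind_pos (show Bdd (T n) from (Bdd_inv n).1 h)]
    · rw [ind_neg h, ind_neg (fun h' : Bdd (T n) => h ((Bdd_inv n).2 h'))]
  have hNs : ∀ n, ind (fun n => ¬ Bdd n) (T n) = ind (fun n => ¬ Bdd n) n := by
    intro n
    exact ind_congr (P := fun _ : ℕ => ¬ Bdd (T n)) (Q := fun _ : ℕ => ¬ Bdd n) (n := 0) (not_congr (Bdd_inv n).symm)
  have hind1 : ∀ (P : ℕ → Prop) n, |ind P n| ≤ 1 := fun P n => by unfold ind; split_ifs <;> simp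
  have hMn : Mn (ind (fun n => ¬ Bdd n)) (1 - β) := by
    unfold Mn at hMβ ⊢
    have h6 : Tendsto (fun _ : ℕ => (1 : ℝ)) atTop (𝓝 1) := tendsto_const_nhds
    refine (h6.sub hMβ).congr' ?_
    filter_upwards [eventually_ge_atTop 1] with N hN
    have hx0 : (N : ℝ) ≠ 0 := by
      have : (0 : ℝ) < N := by exact_mod_cast hN
      exact this.ne'
    have e : ∀ n ∈ Finset.Icc 1 N, ind (fun n => ¬ Bdd n) n = 1 - ind Bdd n := by
      intro n _
      by_cases hn : Bdd n
      · rw [ind_pos hn, ind_neg (P := fun n => ¬ Bdd n) (not_not.2 hn), sub_self]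
      · rw [ind_neg hn, ind_pos (P := fun n => ¬ Bdd n) hn, sub_zero]
    rw [Finset.sum_congr rfl e, Finset.sum_sub_distrib, Finset.sum_const, Nat.card_Icc, Nat.add_sub_cancel, nsmul_eq_mul, mul_one]
    field_simp
  obtain ⟨η, c, hη, hc0, hc1, hSe⟩ := scaleE (adm3 (k := 1) odd_one) 1 0 hε hε1
  obtain ⟨K, hK, S₀⟩ := hSe 0
  have hFl : ∀ {q : ℕ} {f : ℕ → ℂ}, Flat q η f → FlatP q η f := fun h => ⟨h.1, h.2, h.3⟩
  have hlF : ∀ {q : ℕ} {f : ℕ → ℂ}, FlatP q η f → Flat q η f := fun h => ⟨h.1, h.2, h.3⟩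
  have hFs : ∀ {q : ℕ} {A : Finset ℕ}, FlatSet q η A → FlatI q η A := fun h => ⟨h.1, hFl h.2⟩
  have hrho : ∀ {N q : ℕ} {A : Finset ℕ} {v : ℝ}, Odd q → (q : ℝ) * (N : ℝ) ^ (-v) ≤ A.card → (N : ℝ) ^ (-v) ≤ (A.card / q : ℝ) := by
    intro N q A v hq h
    have hq0 : 0 < q := hq.pos
    have hqr : (0 : ℝ) < q := by exact_mod_cast hq0
    rw [le_div_iff₀ hqr]
    linarith
  have hrho1 : ∀ {q : ℕ} {A : Finset ℕ}, Odd q → A ⊆ Finset.range q → (A.card / q : ℝ) ≤ 1 := by
    intro q A hq hA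
    have hq0 : 0 < q := hq.pos
    have hqr : (0 : ℝ) < q := by exact_mod_cast hq0
    rw [div_le_one hqr]
    have := Finset.card_le_card hA
    rw [Finset.card_range] at this
    exact_mod_cast this
  have hcnt : ∀ (E P : ℕ → Prop) (X : ℕ), count (fun n => E n ∧ P n) X = ∑ n ∈ Finset.Icc 1 X, ind E n * ind P n := by
    intro E P X
    rw [count_ind]
    apply Finset.sum_congr rfl
    intro n _
    exact Pool.Agent.Run7.h439.DC.ind_and _ _ n
  -- sets of density at least `κ`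
  have hκrho : ∀ {q : ℕ} {A : Finset ℕ} {κ : ℝ}, Odd q → κ * (q : ℝ) ≤ A.card → κ ≤ (A.card / q : ℝ) := by
    intro q A κ hq h
    have hq0 : 0 < q := hq.pos
    have hqr : (0 : ℝ) < q := by exact_mod_cast hq0
    rw [le_div_iff₀ hqr]
    exact h
  have hκev : ∀ κ : ℝ, 0 < κ → ∀ᶠ N : ℕ in atTop, (N : ℝ) ^ (-(c / 2)) ≤ κ := by
    intro κ hκ
    have t := (tendsto_rpow_neg_atTop (show 0 < c / 2 by positivity)).comp (tendsto_natCast_atTop_atTop (R := ℝ))
    exact (t.eventually (ge_mem_nhds hκ)).mono fun N hN => hN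
  refine ⟨η, c, K + 1, hη, hc0, hc1, by linarith, ?_, ?_, ?_, ?_, ?_, ?_, ?_⟩
  · intro N q hN hq g hg F hb hF X hX
    have h4 := S₀.fun1 (Or.inl rfl) hN hq.1.pos (Nat.coprime_two_left.2 hq.1) hq.2.1 hq.2.2 (hFl hg) (sync_of hb hF) hX
    refine h4.trans ?_
    have : 0 ≤ (N : ℝ) ^ (1 - c) := by positivity
    nlinarith
  · intro v hv0 hv τ hτ
    constructor
    · obtain ⟨N₀, hN₀⟩ := (dens hMβ (C := K) hv hτ).exists_forall_of_atTop
      refine ⟨max N₀ 1, fun N hN q hq A hA hcard => ?_⟩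
      have hN1 : 1 ≤ N := (le_max_right _ _).trans hN
      have g1 := hN₀ N ((le_max_left _ _).trans hN) (fun n => n % q ∈ A) (A.card / q) (hrho hq.1 hcard)
        (S₀.set1 (Or.inl rfl) hN1 hq.1.pos (Nat.coprime_two_left.2 hq.1) hq.2.1 hq.2.2 (hFs hA) (sync_of (hind1 Bdd) hBs))
      have e : count (fun n => n % q ∈ A ∧ FiniteExcursion n) N = count (fun n => n % q ∈ A ∧ Bdd n) N := rfl
      rw [e, hcnt]
      exact g1
    · intro lam hl
      obtain ⟨_, _, hlim, _⟩ := hw lam hl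
      have hlimβ : Tendsto (fun K => rK K lam * β) atTop (𝓝 (β * w lam)) := by
        have := hlim.mul_const β
        rw [mul_comm β]
        exact this
      obtain ⟨e, he⟩ := (hlimβ.eventually (gt_mem_nhds (show β * w lam < β * w lam + τ / 2 by linarith))).exists
      obtain ⟨C, hC, S⟩ := hSe e
      obtain ⟨N₀, hN₀⟩ := (upper (A := fun n => ∀ k, ((Tn^[k] n : ℕ) : ℝ) ≤ lam * n) (B := fun n => AK e lam n ∧ Bdd n)
        (fun n hn h => ⟨Pool.Agent.H499R2.ND.AK_of_bound hl hn h e, ⌊lam * n⌋₊, fun k => Nat.le_floor (h k)⟩)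
        (Mn_of_Dn (Pool.Agent.H499R2.ND.dn_AK Bdd_inv hβ e lam)) (C := C) hv
        (show 0 < τ / 2 by positivity)).exists_forall_of_atTop
      refine ⟨max N₀ 1, fun N hN q hq A hA hcard => ?_⟩
      have hN1 : 1 ≤ N := (le_max_right _ _).trans hN
      have hρ := hrho (v := v) hq.1 hcard
      have g1 := hN₀ N ((le_max_left _ _).trans hN) (fun n => n % q ∈ A) (A.card / q) hρ
        (S.setw (Or.inl rfl) hN1 hq.1.pos (Nat.coprime_two_left.2 hq.1) hq.2.1 hq.2.2 (hFs hA)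
          (fun n => AK_mod e lam n) (sync_of (hind1 Bdd) hBs))
      have e1 : count (fun n => n % q ∈ A ∧ ExcursionLE n (lam * n)) N =
        count (fun n => n % q ∈ A ∧ ∀ k, ((Tn^[k] n : ℕ) : ℝ) ≤ lam * n) N := rfl
      rw [e1, hcnt]
      refine g1.trans ?_
      apply mul_le_mul_of_nonneg_right _ (by positivity)
      linarith
  · intro v hv0 hv ψ hψ hfr
    have hone : β = 1 := by
      by_contra hne
      have hlt : 0 < 1 - β := by
        have := lt_of_le_of_ne hβ1 hne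
        linarith
      obtain ⟨N₀, hN₀⟩ := (dens hMn (C := K) hv (show 0 < (1 - β) / 2 by positivity)).exists_forall_of_atTop
      have hψ' := hψ.eventually (gt_mem_nhds (show (0 : ℝ) < (1 - β) / 4 by positivity))
      obtain ⟨N, ⟨q, hq, A, hA, hcard, hfew⟩, hN, hψN⟩ :=
        (hfr.and_eventually ((eventually_ge_atTop (max N₀ 1)).and hψ')).exists
      have hN1 : 1 ≤ N := (le_max_right _ _).trans hN
      have h5 := hN₀ N ((le_max_left _ _).trans hN) (fun n => n % q ∈ A) (A.card / q) (hrho hq.1 hcard)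
        (S₀.set1 (Or.inl rfl) hN1 hq.1.pos (Nat.coprime_two_left.2 hq.1) hq.2.1 hq.2.2 (hFs hA)
          (sync_of (hind1 (fun n => ¬ Bdd n)) hNs))
      have e : count (fun n => n % q ∈ A ∧ ¬ FiniteExcursion n) N = count (fun n => n % q ∈ A ∧ ¬ Bdd n) N := rfl
      rw [e, hcnt] at hfew
      have hN1' : (1 : ℝ) ≤ N := by exact_mod_cast hN1
      have hρ := hrho (v := v) hq.1 hcard
      have hρ0 : 0 < (A.card / q : ℝ) := lt_of_lt_of_le (by positivity) hρ
      have h6 : 0 < (A.card / q : ℝ) * N := mul_pos hρ0 (by linarith)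
      have h7 := (abs_le.1 h5).1
      nlinarith
    exact hβall.1 hone
  · intro κ hκ τ hτ lam hl
    obtain ⟨_, _, hlim, hX⟩ := hw lam hl
    constructor
    · obtain ⟨e, he, hev⟩ := approx (A := fun n => ∀ k, ((Tn^[k] n : ℕ) : ℝ) ≤ lam * n) (B := fun K n => AK K lam n ∧ Bdd n)
        (b := fun K => rK K lam * β)
        (fun K n hn h => ⟨Pool.Agent.H499R2.ND.AK_of_bound hl hn h K, ⌊lam * n⌋₊, fun k => Nat.le_floor (h k)⟩)
        (Mn_of_Dn hX) (fun K => Mn_of_Dn (Pool.Agent.H499R2.ND.dn_AK Bdd_inv hβ K lam)) (by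
          have := hlim.mul_const β
          rw [mul_comm β]
          exact this) (show 0 < τ * κ by positivity)
      obtain ⟨C, hC, S⟩ := hSe e
      have hd := dens (Mn_of_Dn (Pool.Agent.H499R2.ND.dn_AK Bdd_inv hβ e lam)) (C := C) (show c / 2 < c by linarith)
        (show 0 < τ * κ / 4 by positivity)
      obtain ⟨N₀, hN₀⟩ := (hev.and (hd.and (hκev κ hκ))).exists_forall_of_atTop
      refine ⟨max N₀ 1, fun N hN q hq A hA hcard => ?_⟩
      have hN1 : 1 ≤ N := (le_max_right _ _).trans hN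
      obtain ⟨g1, g2, g3⟩ := hN₀ N ((le_max_left _ _).trans hN)
      have hρ := hκrho hq.1 hcard
      have hρ1 := hrho1 hq.1 hA.1
      have hN0 : (0 : ℝ) ≤ N := Nat.cast_nonneg _
      have g4 := g2 (fun n => n % q ∈ A) (A.card / q) (g3.trans hρ)
        (S.setw (Or.inl rfl) hN1 hq.1.pos (Nat.coprime_two_left.2 hq.1) hq.2.1 hq.2.2 (hFs hA)
          (fun n => AK_mod e lam n) (sync_of (hind1 Bdd) hBs))
      have g5 : τ * κ / 4 * ((A.card / q : ℝ) * N) ≤ τ * κ / 4 * N :=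
        mul_le_mul_of_nonneg_left (mul_le_of_le_one_left hN0 hρ1) (by positivity)
      have g6 := g1 (fun n => n % q ∈ A) (A.card / q) (hκ.le.trans hρ) hρ1 (g4.trans g5)
      have e1 : count (fun n => n % q ∈ A ∧ ExcursionLE n (lam * n)) N =
        count (fun n => n % q ∈ A ∧ ∀ k, ((Tn^[k] n : ℕ) : ℝ) ≤ lam * n) N := rfl
      rw [e1, hcnt]
      refine g6.trans ?_
      rw [mul_assoc]
      exact mul_le_mul_of_nonneg_left (mul_le_mul_of_nonneg_right hρ hN0) hτ.le
    · intro r a b hr x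
      -- the law of the total stopping time
      have hP : ∀ x : ℝ, Pool.Agent.H499R2.ND.Dn (Pev r a b x) (δ / r ^ 2 * Pool.Agent.H499R2.ND.Phi x) := by
        intro x
        have h5 := (hlaw r a b hr).2 x
        have e : δ * ProbabilityTheory.cdf (ProbabilityTheory.gaussianReal 0 1) x / (r : ℝ) ^ 2
            = δ / r ^ 2 * Pool.Agent.H499R2.ND.Phi x := by rw [Pool.Agent.H499R2.ND.phi_cdf]; ring
        rw [e] at h5
        exact h5
      have hPE := fun x => Pool.Agent.H499R2.HL.law_next hP x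
      have hjoint := Pool.Agent.H499R2.HL.joint_exc hβ (fun n ⟨k, _, hk, _⟩ => Pool.Agent.H499R2.HL.Bdd_of_H hk) (hP x) (hPE x) hl hlim hX
      set V : ℕ → ℕ → ℕ := fun k _ => k with hV
      have hA0 : (0 : ℝ) < 2 / Real.log (4 / 3) := div_pos (by norm_num) (Real.log_pos (by norm_num))
      have hPev : ∀ n : ℕ, Pev r a b x n ↔ ∃ j : ℕ, (j : ℝ) ≤ th (2 / Real.log (4 / 3)) bK x n ∧ Hv V (clsK r a b) j n := by
        intro n
        unfold Pool.Agent.H499R2.HL.Pev Hv Pool.Agent.Y965.PL.clsK Pool.Agent.Y965.PL.bK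
        constructor
        · rintro ⟨k, h1, h2, h3⟩
          refine ⟨k, ?_, k, h2, rfl, h3⟩
          rw [Pool.Agent.Y965.PL.th_eq]
          exact h1
        · rintro ⟨j, h1, k, h2, h3, h4⟩
          have h5 : k = j := h3
          subst h5
          refine ⟨k, ?_, h2, h4⟩
          rw [Pool.Agent.Y965.PL.th_eq] at h1
          exact h1
      obtain ⟨e, he, hev⟩ := approx (A := fun n => Pev r a b x n ∧ ∀ k, ((Tn^[k] n : ℕ) : ℝ) ≤ lam * n)
        (B := fun K n => AK K lam n ∧ Pev r a b x n)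
        (b := fun K => rK K lam * (δ / r ^ 2 * Pool.Agent.H499R2.ND.Phi x))
        (fun K n hn h => ⟨Pool.Agent.H499R2.ND.AK_of_bound hl hn h.2 K, h.1⟩)
        (Mn_of_Dn hjoint) (fun K => Mn_of_Dn (Pool.Agent.H499R2.HL.dn_AK' (hP x) (hPE x) K lam)) (by
          have := hlim.mul_const (δ / r ^ 2 * Pool.Agent.H499R2.ND.Phi x)
          rw [mul_comm (δ / (r : ℝ) ^ 2 * Pool.Agent.H499R2.ND.Phi x)]
          exact this) (show 0 < τ * κ by positivity)
      obtain ⟨C, hC, S⟩ := hSe e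
      set Lev : ℕ → ℕ → Prop := fun j n => AK e lam n ∧ Hv V (clsK r a b) j n with hLev
      have huniq : ∀ i j n, Lev i n → Lev j n → i = j := fun i j n h1 h2 => Hv_unique h1.2 h2.2
      have hBL : ∀ n, (AK e lam n ∧ Pev r a b x n) ↔ ∃ j : ℕ, (j : ℝ) ≤ th (2 / Real.log (4 / 3)) bK x n ∧ Lev j n := by
        intro n
        rw [hPev n]
        constructor
        · rintro ⟨h1, j, h2, h3⟩; exact ⟨j, h2, h1, h3⟩
        · rintro ⟨j, h2, h1, h3⟩; exact ⟨h1, j, h2, h3⟩
      have hL : Mn (ind (fun n => ∃ j : ℕ, (j : ℝ) ≤ th (2 / Real.log (4 / 3)) bK x n ∧ Lev j n))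
          (rK e lam * (δ / r ^ 2 * Pool.Agent.H499R2.ND.Phi x)) := by
        have h2 := Mn_of_Dn (Pool.Agent.H499R2.HL.dn_AK' (hP x) (hPE x) e lam)
        unfold Mn at h2 ⊢
        refine h2.congr fun X => ?_
        congr 1
        apply Finset.sum_congr rfl
        intro n _
        exact ind_congr (hBL n)
      have hd := lawG huniq hA0 hL hC (show c / 2 < c by linarith) hc1.le (show 0 < τ * κ / 4 by positivity)
      obtain ⟨N₀, hN₀⟩ := (hev.and (hd.and (hκev κ hκ))).exists_forall_of_atTop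
      refine ⟨max N₀ 1, fun N hN q hq A hA hcard => ?_⟩
      have hN1 : 1 ≤ N := (le_max_right _ _).trans hN
      obtain ⟨g1, g2, g3⟩ := hN₀ N ((le_max_left _ _).trans hN)
      have hρ := hκrho hq.1 hcard
      have hρ1 := hrho1 hq.1 hA.1
      have hN0 : (0 : ℝ) ≤ N := Nat.cast_nonneg _
      have g4 := g2 (fun n => n % q ∈ A) (A.card / q) (g3.trans hρ) hρ1
        (fun j => S.setw (Or.inl rfl) hN1 hq.1.pos (Nat.coprime_two_left.2 hq.1) hq.2.1 hq.2.2 (hFs hA)
          (fun n => AK_mod e lam n) (ksync_lev V (clsK r a b) j))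
      have e4 : ∑ n ∈ Finset.Icc 1 N, ind (fun n => n % q ∈ A) n *
          ind (fun n => ∃ j : ℕ, (j : ℝ) ≤ th (2 / Real.log (4 / 3)) bK x n ∧ Lev j n) n =
          ∑ n ∈ Finset.Icc 1 N, ind (fun n => n % q ∈ A) n * ind (fun n => AK e lam n ∧ Pev r a b x n) n := by
        apply Finset.sum_congr rfl
        intro n _
        congr 1
        exact ind_congr (hBL n).symm
      rw [e4] at g4
      have g5 : τ * κ / 4 * ((A.card / q : ℝ) * N) ≤ τ * κ / 4 * N :=
        mul_le_mul_of_nonneg_left (mul_le_of_le_one_left hN0 hρ1) (by positivity)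
      have g6 := g1 (fun n => n % q ∈ A) (A.card / q) (hκ.le.trans hρ) hρ1 (g4.trans g5)
      have e1 : count (fun n => n % q ∈ A ∧ ExcursionLE n (lam * n) ∧ ∃ k : ℕ, (k : ℝ) ≤ bound x n ∧
            IsTotalStoppingTime n k ∧ (k : ℤ) ≡ a [ZMOD r] ∧ (odds k n : ℤ) ≡ b [ZMOD r]) N =
        count (fun n => n % q ∈ A ∧ (Pev r a b x n ∧ ∀ k, ((Tn^[k] n : ℕ) : ℝ) ≤ lam * n)) N := by
        have e2 : (fun n => n % q ∈ A ∧ ExcursionLE n (lam * n) ∧ ∃ k : ℕ, (k : ℝ) ≤ bound x n ∧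
            IsTotalStoppingTime n k ∧ (k : ℤ) ≡ a [ZMOD r] ∧ (odds k n : ℤ) ≡ b [ZMOD r]) =
            fun n => n % q ∈ A ∧ (Pev r a b x n ∧ ∀ k, ((Tn^[k] n : ℕ) : ℝ) ≤ lam * n) := by
          funext n
          apply propext
          rw [and_comm (a := Pev r a b x n)]
          exact Iff.rfl
        rw [e2]
      have e3 : δ / (r : ℝ) ^ 2 * Pool.Agent.H499R2.ND.Phi x * w lam = δ * w lam * Phi x / r ^ 2 := by
        unfold Phi
        rw [← Pool.Agent.H499R2.ND.phi_cdf]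
        ring
      rw [e1, hcnt, ← e3]
      refine g6.trans ?_
      rw [mul_assoc]
      exact mul_le_mul_of_nonneg_left (mul_le_mul_of_nonneg_right hρ hN0) hτ.le
  · intro q χ hq hχ
    exact hlF (flatP_char hq hη.le hχ)
  · intro q a b hq hab
    exact hlF (flatP_quad hη.le hq hab b)
  · intro p k hp hk hkp A hA h
    have h5 := flatI_pow hp hk hkp hA h
    exact ⟨h5.1, hlF h5.2⟩

end Pool.Agent.Results.MP_0a5adf_nt.FlatResidues
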