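import Mathlib
import Pool.Agent.Run7.h145.QX.I

set_option autoImplicit false

/-!
The maximum excursions `t(n)` of the `3x+1` map along the values of quadratic polynomials in several variables.

The values have density zero or large multiplicities (for example the sums of two squares, and the products
`x y`); all statements count the integral points `x` of a box at which the value `P(x)` has a property.
-/

namespace Pool.Agent.Results.MP_0a5adf_nt.QuadraticValues

open Filter Topology Finset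

/-- the accelerated `3x+1` map -/
def T (n : ℕ) : ℕ := if n % 2 = 0 then n / 2 else (3 * n + 1) / 2

/-- `t(n) < ∞` -/
def FiniteExcursion (n : ℕ) : Prop := ∃ M : ℕ, ∀ k, T^[k] n ≤ M

/-- `t(n) ≤ lam n` -/
def Excursion (lam : ℝ) (n : ℕ) : Prop := ∀ k, ((T^[k] n : ℕ) : ℝ) ≤ lam * n

/-- `S` is a set of integers of finite excursion, invariant under the map and its inverse. -/
def FiniteInvariant (S : ℕ → Prop) : Prop := (∀ n : ℕ, 1 ≤ n → (S n ↔ S (T n))) ∧ ∀ n, S n → FiniteExcursion n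

/-- the positive integers with the property `S` have the natural density `δ` -/
def HasDensity (S : ℕ → Prop) (δ : ℝ) : Prop :=
  Tendsto (fun N : ℕ => ({n : ℕ | 1 ≤ n ∧ n ≤ N ∧ S n}.ncard : ℝ) / N) atTop (𝓝 δ)

/-- the number of the odd terms among `n, T n, ..., T^(k-1) n` -/
def oddTerms (k n : ℕ) : ℕ := ∑ i ∈ range k, T^[i] n % 2

/-- the first `K` steps multiply by less than `lam`: `3^a < lam * 2^k` for `1 ≤ k ≤ K`, where `a` is the
number of the odd terms among the first `k` ones. This depends on `n` modulo `2^K` only. -/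
def Safe (K : ℕ) (lam : ℝ) (n : ℕ) : Prop := ∀ k, 1 ≤ k → k ≤ K → (3 : ℝ) ^ oddTerms k n < lam * 2 ^ k

/-- The value at `x` of the quadratic polynomial with quadratic part `∑ A i j x i x j`, linear part
`∑ l i x i` and constant term `c`. -/
def Val {n : ℕ} (A : Fin n → Fin n → ℤ) (l : Fin n → ℤ) (c : ℤ) (x : Fin n → ℤ) : ℤ :=
  ∑ i, ∑ j, A i j * x i * x j + ∑ i, l i * x i + c

/-- The quadratic form `∑ A i j x i x j` has rank at least two: the symmetric matrix
`A i j + A j i` has a minor of order two that is not zero. -/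
def RankTwo {n : ℕ} (A : Fin n → Fin n → ℤ) : Prop :=
  ∃ p q r s : Fin n, (A p r + A r p) * (A q s + A s q) ≠ (A p s + A s p) * (A q r + A r q)

/-- The integral points `x` of the box `a i < x i ≤ b i` with `x ∈ D` at which the polynomial has a positive
value with `u < value ≤ v`. -/
def Points {n : ℕ} (A : Fin n → Fin n → ℤ) (l : Fin n → ℤ) (c : ℤ) (a b : Fin n → ℤ) (u v : ℤ)
    (D : Set (Fin n → ℤ)) : Set (Fin n → ℤ) :=
  {x | (∀ i, a i < x i ∧ x i ≤ b i) ∧ (u < Val A l c x ∧ Val A l c x ≤ v) ∧ 0 < Val A l c x ∧ x ∈ D}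

/-- The linear coefficients are at most `B R`, the constant term is at most `B R ^ 2`, and the box
`a i < x i ≤ b i` lies in `[-R, R] ^ n`. -/
def Bounds {n : ℕ} (B : ℝ) (R : ℕ) (l : Fin n → ℤ) (c : ℤ) (a b : Fin n → ℤ) : Prop :=
  (∀ i, |(l i : ℝ)| ≤ B * R) ∧ |(c : ℝ)| ≤ B * R ^ 2 ∧ ∀ i, |a i| ≤ R ∧ |b i| ≤ R

/-- The integral points of the cube `[-N, N] ^ n` at which the polynomial has a positive value with the
property `S`. -/
def Cube {n : ℕ} (A : Fin n → Fin n → ℤ) (l : Fin n → ℤ) (c : ℤ) (S : ℕ → Prop) (N : ℕ) : Set (Fin n → ℤ) :=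
  {x | (∀ i, |x i| ≤ N) ∧ 0 < Val A l c x ∧ S (Val A l c x).toNat}

/-- Among the points of the cubes `[-N, N] ^ n` with a positive value, those whose value has the property `S`
have the proportion `f`, as `N` tends to infinity. -/
def Proportion {n : ℕ} (A : Fin n → Fin n → ℤ) (l : Fin n → ℤ) (c : ℤ) (S : ℕ → Prop) (f : ℝ) : Prop :=
  Tendsto (fun N : ℕ => ((Cube A l c S N).ncard : ℝ) / (Cube A l c (fun _ => True) N).ncard) atTop (𝓝 f)

/-- The points modulo `2 ^ K` with safe values. -/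
def SafePoints {n : ℕ} (A : Fin n → Fin n → ℤ) (l : Fin n → ℤ) (c : ℤ) (lam : ℝ) (K : ℕ) : Set (Fin n → ℤ) :=
  {r | (∀ i, 0 ≤ r i ∧ r i < 2 ^ K) ∧ Safe K lam (Val A l c r % 2 ^ K).toNat}

/-- For every `K` the values take every residue class modulo `2 ^ K` equally often at the points modulo
`2 ^ K`. -/
def Equidistributed {n : ℕ} (A : Fin n → Fin n → ℤ) (l : Fin n → ℤ) (c : ℤ) : Prop := ∀ K m : ℕ, m < 2 ^ K →
  2 ^ K * {r : Fin n → ℤ | (∀ i, 0 ≤ r i ∧ r i < 2 ^ K) ∧ Val A l c r ≡ m [ZMOD 2 ^ K]}.ncard = (2 ^ K) ^ n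

theorem T_eq' : T = Pool.Agent.H499R2.ND.Tn := by
  funext n; rfl

theorem exc_iff (lam : ℝ) (n : ℕ) : Excursion lam n ↔ Pool.Agent.Run7.h145.QX.Ex lam n := by
  unfold Excursion Pool.Agent.Run7.h145.QX.Ex
  rw [T_eq']

theorem fin_iff (n : ℕ) : FiniteExcursion n ↔ Pool.Agent.H499R2.ND.Bdd n := by
  unfold FiniteExcursion Pool.Agent.H499R2.ND.Bdd
  rw [T_eq']

theorem exc_eq : Excursion = Pool.Agent.Run7.h145.QX.Ex := by
  funext lam n; exact propext (exc_iff lam n)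

theorem fin_eq : FiniteExcursion = Pool.Agent.H499R2.ND.Bdd := by
  funext n; exact propext (fin_iff n)

theorem safe_eq : Safe = Pool.Agent.H499R2.ND.AK := rfl

theorem inv_of {S : ℕ → Prop} (h : FiniteInvariant S) : Pool.Agent.Run7.h145.QX.FI S := by
  unfold FiniteInvariant at h
  rw [T_eq', fin_eq] at h
  exact h

theorem dens01 {S : ℕ → Prop} {δ : ℝ} (h : HasDensity S δ) : 0 ≤ δ ∧ δ ≤ 1 := by
  have h' : Pool.Agent.H499R2.ND.Dn S δ := h
  constructor
  · refine ge_of_tendsto' h' fun N => ?_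
    exact div_nonneg (Pool.Agent.H499R2.ND.cntn_nonneg _ _) (Nat.cast_nonneg _)
  · refine le_of_tendsto' h' fun N => ?_
    rcases Nat.eq_zero_or_pos N with h1 | h1
    · subst h1; simp
    · rw [div_le_one (by exact_mod_cast h1)]
      exact Pool.Agent.H499R2.ND.cnt_le _ N

theorem cube_eq {n : ℕ} (A : Fin n → Fin n → ℤ) (l : Fin n → ℤ) (c : ℤ) (S : ℕ → Prop) [DecidablePred S] (N : ℕ) :
    (Cube A l c S N).ncard =
      #{x ∈ Pool.Agent.Run7.h145.QX.cb n N | 0 < Val A l c x ∧ S (Val A l c x).toNat} :=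
  Pool.Agent.Run7.h145.QX.ncard_cb (k := n) N (fun x => 0 < Val A l c x ∧ S (Val A l c x).toNat)

theorem cube_eq' {n : ℕ} (A : Fin n → Fin n → ℤ) (l : Fin n → ℤ) (c : ℤ) (N : ℕ) :
    (Cube A l c (fun _ => True) N).ncard = #{x ∈ Pool.Agent.Run7.h145.QX.cb n N | 0 < Val A l c x} := by
  rw [cube_eq]
  simp only [and_true]

theorem prop_iff {n : ℕ} (A : Fin n → Fin n → ℤ) (l : Fin n → ℤ) (c : ℤ) (S : ℕ → Prop) [DecidablePred S] (f : ℝ) :
    Proportion A l c S f ↔ Tendsto (fun N : ℕ =>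
      (#{x ∈ Pool.Agent.Run7.h145.QX.cb n N | 0 < Val A l c x ∧ S (Val A l c x).toNat} : ℝ) /
      #{x ∈ Pool.Agent.Run7.h145.QX.cb n N | 0 < Val A l c x}) atTop (𝓝 f) := by
  unfold Proportion
  simp only [cube_eq, and_true]

/-- MAXIMUM EXCURSIONS ALONG THE VALUES OF QUADRATIC POLYNOMIALS.
Let `β > 0` be the natural density of the integers `n` with `t(n) < ∞` (`β = 1` if and only if no trajectory is
unbounded). For every integral quadratic form of rank at least two in `n` variables: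
(1) THE LAW OF `t(P) / P`. For all `B, ε > 0` there is `K₀` such that for `K ≥ K₀`, `lam ≥ 1`, `q ≥ 1`, every
invariant set `S` of integers of finite excursion (for example all of them, or the integers whose trajectory
reaches `1`) of density `δ`, and all large `R`, for all polynomials `P` with this quadratic part, linear
coefficients at most `B R` and constant term at most `B R ^ 2`, all boxes in `[-R, R] ^ n`, all `u`, `v` and all
sets `D` of integral points periodic modulo `q`, the number of the points `x ∈ D` of the box with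
`u < P(x) ≤ v`, `P(x) > 0`, `P(x) ∈ S` and `t(P(x)) ≤ lam P(x)` is `δ` times the number of those for which
`P(x)` is safe, up to `ε R ^ n`.
(2) THE TAIL. For all `B, ε > 0` there is `Λ` such that for all large `R` and all such `P` and boxes the number
of the points with `P(x) > 0` and `Λ P(x) < t(P(x)) < ∞` is at most `ε R ^ n`.
(3) LIMITS. Let the form take a positive value. For all `lam ≥ 1` the proportion of the points of `[-N, N] ^ n`
with `t(P(x)) ≤ lam P(x)`, among those with `P(x) > 0`, tends to `β σ(lam)`, where `σ(lam)` is the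
limit of the proportion of the points modulo `2 ^ K` with safe values, and `σ(lam)` tends to `1` as `lam`
tends to infinity; with `P(x) ∈ S` the limit is `δ σ(lam)`. For every `f` tending to infinity the proportion of
the points with `t(P(x)) ≤ f(P(x)) P(x)` tends to `β`. For `f(m) = C m`: the bound `t(m) ≤ C m ^ 2` holds for
almost all values `m = P(x)` if and only if no trajectory is unbounded.
(4) If the values of `P` are equidistributed modulo the powers of two, then the proportion of the points with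
`t(P(x)) ≤ lam P(x)` tends to the natural density of the integers `m` with `t(m) ≤ lam m`. For example
`P = (2 x + 1) y`.
(5) If `b ^ 2 ≠ 4 a c`, there are `κ > 0` and `Λ` such that every large integer `m` has at least `κ m`
representations `m = a y ^ 2 + b y z + c z ^ 2 + s` with positive `y`, `z` at most `√m`, `s ≥ 1` and
`t(s) ≤ Λ s`. -/
theorem result : ∃ β : ℝ, 0 < β ∧ β ≤ 1 ∧ (β = 1 ↔ ∀ n : ℕ, 1 ≤ n → FiniteExcursion n) ∧
    HasDensity FiniteExcursion β ∧
    (∀ (n : ℕ) (A : Fin n → Fin n → ℤ), RankTwo A → ∀ B ε : ℝ, 0 < B → 0 < ε →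
      (∃ K₀ : ℕ, ∀ K : ℕ, K₀ ≤ K → ∀ (lam : ℝ) (q : ℕ), 1 ≤ lam → 1 ≤ q → ∀ (S : ℕ → Prop) (δ : ℝ),
        FiniteInvariant S → HasDensity S δ → ∃ R₀ : ℕ, ∀ R : ℕ, R₀ ≤ R →
        ∀ (l : Fin n → ℤ) (c : ℤ) (a b : Fin n → ℤ), Bounds B R l c a b → ∀ (u v : ℤ) (D : Set (Fin n → ℤ)),
        (∀ x y : Fin n → ℤ, (∀ i, x i ≡ y i [ZMOD q]) → (x ∈ D ↔ y ∈ D)) →
        |({x ∈ Points A l c a b u v D | S (Val A l c x).toNat ∧ Excursion lam (Val A l c x).toNat}.ncard : ℝ) -
          δ * {x ∈ Points A l c a b u v D | Safe K lam (Val A l c x).toNat}.ncard| ≤ ε * R ^ n) ∧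
      (∃ Λ : ℝ, 1 ≤ Λ ∧ ∃ R₀ : ℕ, ∀ R : ℕ, R₀ ≤ R → ∀ (l : Fin n → ℤ) (c : ℤ) (a b : Fin n → ℤ),
        Bounds B R l c a b → ({x : Fin n → ℤ | (∀ i, a i < x i ∧ x i ≤ b i) ∧ 0 < Val A l c x ∧
          FiniteExcursion (Val A l c x).toNat ∧ ¬ Excursion Λ (Val A l c x).toNat}.ncard : ℝ) ≤ ε * R ^ n)) ∧
    (∀ (n : ℕ) (A : Fin n → Fin n → ℤ), RankTwo A → ∀ (l : Fin n → ℤ) (c : ℤ) (x₀ : Fin n → ℤ),
      0 < ∑ i, ∑ j, A i j * x₀ i * x₀ j →
      (∃ σ : ℝ → ℝ, Tendsto σ atTop (𝓝 1) ∧ ∀ lam : ℝ, 1 ≤ lam → 0 ≤ σ lam ∧ σ lam ≤ 1 ∧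
        Tendsto (fun K : ℕ => ((SafePoints A l c lam K).ncard : ℝ) / (2 ^ K) ^ n) atTop (𝓝 (σ lam)) ∧
        Proportion A l c (Excursion lam) (β * σ lam) ∧
        ∀ (S : ℕ → Prop) (δ : ℝ), FiniteInvariant S → HasDensity S δ →
          Proportion A l c (fun m => S m ∧ Excursion lam m) (δ * σ lam)) ∧
      (∀ f : ℕ → ℝ, Tendsto f atTop atTop → Proportion A l c (fun m => Excursion (f m) m) β) ∧
      (∀ C : ℝ, 0 < C → (Proportion A l c (fun m => Excursion (C * m) m) 1 ↔ ∀ m : ℕ, 1 ≤ m → FiniteExcursion m)) ∧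
      (Equidistributed A l c → ∀ lam δ : ℝ, 1 ≤ lam → HasDensity (Excursion lam) δ →
        Proportion A l c (Excursion lam) δ)) ∧
    (∀ lam δ : ℝ, 1 ≤ lam → HasDensity (Excursion lam) δ → Tendsto (fun N : ℕ =>
      ({p : ℤ × ℤ | |p.1| ≤ N ∧ |p.2| ≤ N ∧ 0 < (2 * p.1 + 1) * p.2 ∧ Excursion lam ((2 * p.1 + 1) * p.2).toNat}.ncard : ℝ) /
      {p : ℤ × ℤ | |p.1| ≤ N ∧ |p.2| ≤ N ∧ 0 < (2 * p.1 + 1) * p.2}.ncard) atTop (𝓝 δ)) ∧
    (∀ a b c : ℤ, b ^ 2 ≠ 4 * a * c → ∃ κ Λ : ℝ, 0 < κ ∧ 1 ≤ Λ ∧ ∃ m₀ : ℕ, ∀ m : ℕ, m₀ ≤ m →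
      κ * m ≤ {p : ℤ × ℤ | (0 < p.1 ∧ p.1 ^ 2 ≤ m) ∧ (0 < p.2 ∧ p.2 ^ 2 ≤ m) ∧
        ∃ s : ℕ, 1 ≤ s ∧ Excursion Λ s ∧ (m : ℤ) = (a * p.1 ^ 2 + b * p.1 * p.2 + c * p.2 ^ 2) + s}.ncard) := by
  classical
  obtain ⟨β, b0, b1, b2, hβ⟩ := Pool.Agent.H499R2.ND.Bdd_density
  rw [safe_eq, fin_eq, exc_eq]
  refine ⟨β, b0, b1, b2, hβ, fun n A hA B ε hB hε => ⟨?_, ?_⟩, fun n A hA l c x₀ h0 => ?_, ?_, ?_⟩
  · obtain ⟨K₀, h1⟩ := Pool.Agent.Run7.h145.QX.law hA hB hε
    refine ⟨K₀, fun K hK lam q hlam hq S δ hS hδ => ?_⟩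
    obtain ⟨R₀, h2⟩ := h1 K hK lam q hlam hq S δ (inv_of hS) hδ
    exact ⟨R₀, fun R hR l c a b hb u v D hD => h2 R hR l c a b hb.1 hb.2.1 hb.2.2 u v D hD⟩
  · obtain ⟨Λ, hΛ, R₀, h1⟩ := Pool.Agent.Run7.h145.QX.tail hA hB hε
    exact ⟨Λ, hΛ, R₀, fun R hR l c a b hb => h1 R hR l c a b hb.1 hb.2.1 hb.2.2⟩
  · have hf : ∀ f : ℕ → ℝ, Tendsto f atTop atTop →
        Proportion A l c (fun m => Pool.Agent.Run7.h145.QX.Ex (f m) m) β := by
      intro f hf
      rw [prop_iff]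
      have h1 := Pool.Agent.Run7.h145.QX.lim_Bdd hβ hA l c h0
      have h2 := Pool.Agent.Run7.h145.QX.few_f hA l c h0 hf
      have h3 := h1.sub h2
      rw [sub_zero] at h3
      refine h3.congr fun N => ?_
      rw [div_sub_div_same]
      congr 1
      have e : #{x ∈ Pool.Agent.Run7.h145.QX.cb n N | 0 < Val A l c x ∧ Pool.Agent.H499R2.ND.Bdd (Val A l c x).toNat} =
          #{x ∈ Pool.Agent.Run7.h145.QX.cb n N | 0 < Val A l c x ∧
            Pool.Agent.Run7.h145.QX.Ex (f (Val A l c x).toNat) (Val A l c x).toNat} +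
          #{x ∈ Pool.Agent.Run7.h145.QX.cb n N | 0 < Val A l c x ∧ Pool.Agent.H499R2.ND.Bdd (Val A l c x).toNat ∧
            ¬ Pool.Agent.Run7.h145.QX.Ex (f (Val A l c x).toNat) (Val A l c x).toNat} := by
        rw [← card_union_of_disjoint]
        · congr 1
          ext x
          simp only [mem_union, mem_filter]
          constructor
          · rintro ⟨g1, g2, g3⟩
            by_cases g4 : Pool.Agent.Run7.h145.QX.Ex (f (Val A l c x).toNat) (Val A l c x).toNat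
            · exact Or.inl ⟨g1, g2, g4⟩
            · exact Or.inr ⟨g1, g2, g3, g4⟩
          · rintro (⟨g1, g2, g3⟩ | ⟨g1, g2, g3, -⟩)
            · exact ⟨g1, g2, Pool.Agent.Run7.h145.QX.Ex_Bdd g3⟩
            · exact ⟨g1, g2, g3⟩
        · rw [disjoint_left]
          intro x hx hx'
          rw [mem_filter] at hx hx'
          exact hx'.2.2.2 hx.2.2
      have er : (#{x ∈ Pool.Agent.Run7.h145.QX.cb n N | 0 < Val A l c x ∧
          Pool.Agent.H499R2.ND.Bdd (Val A l c x).toNat} : ℝ) =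
          #{x ∈ Pool.Agent.Run7.h145.QX.cb n N | 0 < Val A l c x ∧
            Pool.Agent.Run7.h145.QX.Ex (f (Val A l c x).toNat) (Val A l c x).toNat} +
          #{x ∈ Pool.Agent.Run7.h145.QX.cb n N | 0 < Val A l c x ∧ Pool.Agent.H499R2.ND.Bdd (Val A l c x).toNat ∧
            ¬ Pool.Agent.Run7.h145.QX.Ex (f (Val A l c x).toNat) (Val A l c x).toNat} := by exact_mod_cast e
      exact sub_eq_of_eq_add er
    refine ⟨?_, hf, ?_, ?_⟩
    · have h1 : ∀ lam : ℝ, ∃ σ : ℝ, 0 ≤ σ ∧ σ ≤ 1 ∧ Tendsto (Pool.Agent.Run7.h145.QX.sig A l c lam) atTop (𝓝 σ) := by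
        intro lam
        obtain ⟨σ, g1, g2, g3⟩ := Pool.Agent.Run7.h145.QX.sig_lim hA l c h0 lam
        exact ⟨σ, g2, g3, g1⟩
      choose σ hσ using h1
      have e : ∀ (lam : ℝ) (m : ℕ), (Pool.Agent.H499R2.ND.Bdd m ∧ Pool.Agent.Run7.h145.QX.Ex lam m) ↔
          Pool.Agent.Run7.h145.QX.Ex lam m :=
        fun lam m => ⟨fun h => h.2, fun h => ⟨Pool.Agent.Run7.h145.QX.Ex_Bdd h, h⟩⟩
      refine ⟨σ, ?_, fun lam hlam => ?_⟩
      · rw [Metric.tendsto_atTop]
        intro ε hε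
        obtain ⟨Λ, hΛ, h2⟩ := Pool.Agent.Run7.h145.QX.sig_top b0 hβ hA l c h0 (show 0 < ε / 2 by positivity)
        refine ⟨Λ, fun lam hlam => ?_⟩
        obtain ⟨g1, g2, g3⟩ := hσ lam
        have h3 := h2 lam hlam (σ lam) (Pool.Agent.Run7.h145.QX.limit_law b0.le b1 Pool.Agent.Run7.h145.QX.FI_Bdd hβ
          hA l c h0 (hΛ.trans hlam) g3)
        rw [Real.dist_eq, abs_lt]
        constructor <;> linarith
      · obtain ⟨g1, g2, g3⟩ := hσ lam
        have hS : ∀ (S : ℕ → Prop) (δ : ℝ), FiniteInvariant S → HasDensity S δ →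
            Proportion A l c (fun m => S m ∧ Pool.Agent.Run7.h145.QX.Ex lam m) (δ * σ lam) := by
          intro S δ hS hδ
          rw [prop_iff]
          exact Pool.Agent.Run7.h145.QX.limit_law (dens01 hδ).1 (dens01 hδ).2 (inv_of hS) hδ hA l c h0 hlam g3
        refine ⟨g1, g2, g3.congr fun K => ?_, ?_, hS⟩
        · unfold Pool.Agent.Run7.h145.QX.sig SafePoints
          rw [Pool.Agent.Run7.h145.QX.cls_ncard, safe_eq]
          push_cast
          rfl
        · have h4 := Pool.Agent.Run7.h145.QX.limit_law b0.le b1 Pool.Agent.Run7.h145.QX.FI_Bdd hβ hA l c h0 hlam g3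
          simp only [e] at h4
          exact (prop_iff _ _ _ _ _).2 h4
    · intro C hC
      have hf' := hf (fun m => C * m) (tendsto_natCast_atTop_atTop.const_mul_atTop hC)
      constructor
      · intro h
        exact b2.1 (tendsto_nhds_unique hf' h)
      · intro h
        have := b2.2 h
        rw [← this]
        exact hf'
    · intro hU lam δ hlam hδ
      exact (prop_iff _ _ _ _ _).2 (Pool.Agent.Run7.h145.QX.uni_law hA h0 hU hlam hδ)
  · intro lam δ hlam hδ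
    have h1 := Pool.Agent.Run7.h145.QX.uni_law Pool.Agent.Run7.h145.QX.o_rank Pool.Agent.Run7.h145.QX.o_pos
      Pool.Agent.Run7.h145.QX.o_uni hlam hδ
    refine h1.congr fun N => ?_
    rw [← Pool.Agent.Run7.h145.QX.ncard_cb, ← Pool.Agent.Run7.h145.QX.ncard_cb,
      Pool.Agent.Run7.h145.QL.X.ncard_pair (fun y z => |y| ≤ N ∧ |z| ≤ N ∧ 0 < (2 * y + 1) * z ∧
        Pool.Agent.Run7.h145.QX.Ex lam ((2 * y + 1) * z).toNat),
      Pool.Agent.Run7.h145.QL.X.ncard_pair (fun y z => |y| ≤ N ∧ |z| ≤ N ∧ 0 < (2 * y + 1) * z)]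
    simp only [Pool.Agent.Run7.h145.QX.o_val, Fin.forall_fin_two, and_assoc]
  · intro a b c h
    exact Pool.Agent.Run7.h145.QX.represent_ex b0 hβ h

end Pool.Agent.Results.MP_0a5adf_nt.QuadraticValues
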